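import Mathlib

/-!
Exponential sums of polynomials with small leading coefficient (Weyl differencing).
-/

namespace Pool.Agent.ExpSum

open Finset Nat

/-- `e(t) = exp(2 π i t)`. -/
noncomputable def e (t : ℝ) : ℂ := Complex.exp (Complex.I * ((2 * Real.pi * t : ℝ) : ℂ))

theorem e_add (s t : ℝ) : e (s + t) = e s * e t := by
  rw [e, e, e, ← Complex.exp_add]
  congr 1
  push_cast
  ring

theorem e_zero : e 0 = 1 := by simp [e]

theorem norm_e (t : ℝ) : ‖e t‖ = 1 := Complex.norm_exp_I_mul_ofReal _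

theorem e_neg (t : ℝ) : e (-t) = (starRingEnd ℂ) (e t) := by
  rw [e, e, ← Complex.exp_conj]
  congr 1
  rw [map_mul, Complex.conj_I, Complex.conj_ofReal]
  push_cast
  ring

theorem e_sub (s t : ℝ) : e (s - t) = e s * (starRingEnd ℂ) (e t) := by
  rw [sub_eq_add_neg, e_add, e_neg]

theorem norm_e_sub_one_le (t : ℝ) : ‖e t - 1‖ ≤ 2 * Real.pi * |t| := by
  refine (Real.norm_exp_I_mul_ofReal_sub_one_le (x := 2 * Real.pi * t)).trans ?_
  rw [Real.norm_eq_abs, abs_mul, abs_of_pos Real.two_pi_pos]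

theorem norm_e_sub_le (s t : ℝ) : ‖e s - e t‖ ≤ 2 * Real.pi * |s - t| := by
  have h : e s - e t = e t * (e (s - t) - 1) := by
    rw [mul_sub, ← e_add, mul_one]
    congr 2
    ring
  rw [h, norm_mul, norm_e, one_mul]
  exact norm_e_sub_one_le _

theorem four_mul_le_norm {a : ℝ} (ha : |a| ≤ 1 / 2) : 4 * |a| ≤ ‖e a - 1‖ := by
  rw [e, Complex.norm_exp_I_mul_ofReal_sub_one, norm_mul, Real.norm_ofNat, Real.norm_eq_abs]
  have h1 : 2 * Real.pi * a / 2 = Real.pi * a := by ring
  rw [h1]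
  have hpi := Real.pi_pos
  have h2 : |Real.sin (Real.pi * a)| = Real.sin (Real.pi * |a|) := by
    rcases le_total 0 a with h | h
    · rw [abs_of_nonneg h, abs_of_nonneg]
      rw [abs_of_nonneg h] at ha
      refine Real.sin_nonneg_of_nonneg_of_le_pi (by positivity) ?_
      nlinarith
    · rw [abs_of_nonpos h, abs_of_nonpos, mul_neg, Real.sin_neg]
      rw [abs_of_nonpos h] at ha
      have : 0 ≤ Real.sin (Real.pi * (-a)) := by
        refine Real.sin_nonneg_of_nonneg_of_le_pi (by nlinarith) ?_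
        nlinarith
      rw [mul_neg, Real.sin_neg] at this
      linarith
  rw [h2]
  have h3 := Real.mul_le_sin (x := Real.pi * |a|) (by positivity) (by nlinarith [abs_nonneg a])
  have h4 : 2 / Real.pi * (Real.pi * |a|) = 2 * |a| := by field_simp
  rw [h4] at h3
  linarith

theorem norm_sum_linear_le {a : ℝ} (b : ℝ) (ha0 : a ≠ 0) (ha : |a| ≤ 1 / 2) (M : ℕ) :
    ‖∑ y ∈ range M, e (b + a * y)‖ ≤ 1 / (2 * |a|) := by
  have hpos : 0 < |a| := abs_pos.2 ha0
  have h1 : (e a - 1) * ∑ y ∈ range M, e (b + a * y) = e b * (e (a * M) - 1) := by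
    induction M with
    | zero => simp [e_zero]
    | succ M ih =>
      rw [Finset.sum_range_succ, mul_add, ih, e_add b (a * M)]
      have : e (a * ((M + 1 : ℕ) : ℝ)) = e (a * M) * e a := by
        rw [← e_add]; congr 1; push_cast; ring
      rw [this]
      ring
  have h2 : ‖e a - 1‖ * ‖∑ y ∈ range M, e (b + a * y)‖ ≤ 2 := by
    rw [← norm_mul, h1, norm_mul, norm_e, one_mul]
    refine (norm_sub_le _ _).trans ?_
    rw [norm_e, norm_one]
    norm_num
  have h3 := four_mul_le_norm ha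
  rw [le_div_iff₀ (by positivity)]
  nlinarith [norm_nonneg (∑ y ∈ range M, e (b + a * y))]

theorem normSq_sum (f : ℕ → ℝ) (M : ℕ) :
    ‖∑ y ∈ range M, e (f y)‖ ^ 2 = M + 2 * (∑ i ∈ range M, ∑ y ∈ range (M - 1 - i),
      e (f (y + i + 1) - f y)).re := by
  induction M with
  | zero => simp
  | succ M ih =>
    have h1 : ∑ i ∈ range (M + 1), ∑ y ∈ range (M + 1 - 1 - i), e (f (y + i + 1) - f y) =
        ∑ i ∈ range M, ∑ y ∈ range (M - 1 - i), e (f (y + i + 1) - f y) +
        ∑ z ∈ range M, e (f M - f z) := by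
      rw [Finset.sum_range_succ, Nat.add_sub_cancel, Nat.sub_self, Finset.range_zero,
        Finset.sum_empty, add_zero]
      have h2 : ∀ i ∈ range M, ∑ y ∈ range (M - i), e (f (y + i + 1) - f y) =
          ∑ y ∈ range (M - 1 - i), e (f (y + i + 1) - f y) + e (f M - f (M - 1 - i)) := by
        intro i hi
        rw [mem_range] at hi
        have e1 : M - i = (M - 1 - i) + 1 := by omega
        rw [e1, Finset.sum_range_succ]
        congr 3
        congr 1
        omega
      rw [Finset.sum_congr rfl h2, Finset.sum_add_distrib]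
      congr 1
      exact Finset.sum_range_reflect (fun z => e (f M - f z)) M
    rw [h1, Finset.sum_range_succ, Complex.add_re, mul_add]
    have h3 : ‖∑ y ∈ range M, e (f y) + e (f M)‖ ^ 2 = ‖∑ y ∈ range M, e (f y)‖ ^ 2 + 1 +
        2 * (∑ z ∈ range M, e (f M - f z)).re := by
      have h4 : ∑ z ∈ range M, e (f M - f z) =
          e (f M) * (starRingEnd ℂ) (∑ y ∈ range M, e (f y)) := by
        rw [map_sum, Finset.mul_sum]
        exact Finset.sum_congr rfl fun z _ => e_sub _ _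
      rw [h4, ← Complex.normSq_eq_norm_sq, Complex.normSq_add, Complex.normSq_eq_norm_sq,
        Complex.normSq_eq_norm_sq, norm_e, one_pow]
      have h5 : ((∑ y ∈ range M, e (f y)) * (starRingEnd ℂ) (e (f M))).re =
          (e (f M) * (starRingEnd ℂ) (∑ y ∈ range M, e (f y))).re := by
        simp only [Complex.mul_re, Complex.conj_re, Complex.conj_im]
        ring
      rw [h5]
    rw [h3, ih]
    push_cast
    ring

/-- Weyl differencing. -/
theorem weyl_step (f : ℕ → ℝ) (M : ℕ) :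
    ‖∑ y ∈ range M, e (f y)‖ ^ 2 ≤ M + 2 * ∑ i ∈ range M, ‖∑ y ∈ range (M - 1 - i),
      e (f (y + i + 1) - f y)‖ := by
  rw [normSq_sum]
  have h1 : (∑ i ∈ range M, ∑ y ∈ range (M - 1 - i), e (f (y + i + 1) - f y)).re ≤
      ∑ i ∈ range M, ‖∑ y ∈ range (M - 1 - i), e (f (y + i + 1) - f y)‖ :=
    (Complex.re_le_norm _).trans (norm_sum_le _ _)
  linarith

open Polynomial in
theorem diff_poly {k : ℕ} (P : ℝ[X]) (hP : P.natDegree ≤ k + 1) (h : ℝ) :
    (taylor h P - P).natDegree ≤ k ∧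
    (taylor h P - P).coeff k = (k + 1) * h * P.coeff (k + 1) := by
  constructor
  · rw [Polynomial.natDegree_le_iff_coeff_eq_zero]
    intro i hi
    rw [coeff_sub, taylor_coeff]
    have h1 : (hasseDeriv i P).natDegree ≤ 0 := by
      refine (natDegree_hasseDeriv_le P i).trans ?_
      omega
    rw [eq_C_of_natDegree_le_zero h1, eval_C, hasseDeriv_coeff]
    simp
  · rw [coeff_sub, taylor_coeff]
    have h1 : (hasseDeriv k P).natDegree < 2 := by
      refine lt_of_le_of_lt (natDegree_hasseDeriv_le P k) ?_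
      omega
    rw [eval_eq_sum_range' h1, Finset.sum_range_succ, Finset.sum_range_one,
      hasseDeriv_coeff, hasseDeriv_coeff]
    have e1 : (1 + k).choose k = k + 1 := by
      rw [add_comm, Nat.choose_succ_self_right]
    rw [e1, add_comm 1 k]
    simp
    ring

theorem sum_inv_succ_le (N : ℕ) (M : ℕ) (hM : M ≤ N) :
    ∑ i ∈ range M, 1 / ((i : ℝ) + 1) ≤ 1 + Real.log N := by
  have h := harmonic_le_one_add_log N
  have h1 : ((harmonic N : ℚ) : ℝ) = ∑ i ∈ range N, 1 / ((i : ℝ) + 1) := by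
    rw [harmonic]
    push_cast
    simp [one_div]
  rw [h1] at h
  refine le_trans ?_ h
  exact Finset.sum_le_sum_of_subset_of_nonneg (Finset.range_mono hM) fun _ _ _ => by positivity

open Polynomial in
/-- Weyl's inequality for polynomials with small leading coefficient. -/
theorem weyl (j : ℕ) : ∀ (P : ℝ[X]) (N : ℕ), 1 ≤ N → P.natDegree ≤ j + 1 →
    P.coeff (j + 1) ≠ 0 → ((j + 1)! : ℝ) * |P.coeff (j + 1)| * (N : ℝ) ^ j ≤ 1 / 2 →
    ∀ M ≤ N, ‖∑ y ∈ range M, e (P.eval (y : ℝ))‖ ^ (2 ^ j) ≤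
      4 ^ (2 ^ j) * (N : ℝ) ^ (2 ^ j - j - 1) * (1 + Real.log N) ^ j /
        (((j + 1)! : ℝ) * |P.coeff (j + 1)|) := by
  induction j with
  | zero =>
    intro P N hN hP hc hs M hM
    simp only [zero_add, Nat.factorial_one, Nat.cast_one, one_mul, pow_zero, mul_one,
      pow_one] at *
    have h1 : ∀ y ∈ range M, e (P.eval (y : ℝ)) = e (P.coeff 0 + P.coeff 1 * y) := by
      intro y _
      rw [eval_eq_sum_range' (lt_of_le_of_lt hP (by norm_num : 1 < 2)), Finset.sum_range_succ,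
        Finset.sum_range_one]
      simp
    rw [Finset.sum_congr rfl h1]
    refine (norm_sum_linear_le _ hc hs M).trans ?_
    have : 0 < |P.coeff 1| := abs_pos.2 hc
    have e1 : 1 - 0 - 1 = 0 := rfl
    rw [e1, pow_zero, mul_one]
    rw [div_le_div_iff₀ (by positivity) this]
    nlinarith
  | succ j ih =>
    intro P N hN hP hc hs M hM
    have hNr : (1 : ℝ) ≤ N := by exact_mod_cast hN
    have hlog : 0 ≤ Real.log N := Real.log_nonneg hNr
    have hcpos : 0 < |P.coeff (j + 1 + 1)| := abs_pos.2 hc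
    set lam : ℝ := ((j + 1 + 1)! : ℝ) * |P.coeff (j + 1 + 1)| with hlam
    have hlampos : 0 < lam := by positivity
    set E : ℕ → ℝ := fun i => ‖∑ y ∈ range (M - 1 - i),
      e (P.eval ((y + i + 1 : ℕ) : ℝ) - P.eval (y : ℝ))‖ with hE
    have h1 : ∀ i ∈ range M, E i ^ (2 ^ j) ≤
        4 ^ (2 ^ j) * (N : ℝ) ^ (2 ^ j - j - 1) * (1 + Real.log N) ^ j / lam *
          (1 / ((i : ℝ) + 1)) := by
      intro i hi
      rw [mem_range] at hi
      have hi1 : (0 : ℝ) < (i : ℝ) + 1 := by positivity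
      obtain ⟨hd, hcf⟩ := diff_poly P hP ((i : ℝ) + 1)
      have hcf2 : ((j + 1)! : ℝ) * |(taylor ((i : ℝ) + 1) P - P).coeff (j + 1)| =
          lam * ((i : ℝ) + 1) := by
        rw [hcf, abs_mul, abs_mul, abs_of_pos hi1, hlam]
        have : |((j + 1 : ℕ) : ℝ) + 1| = (j : ℝ) + 1 + 1 := by
          push_cast
          exact abs_of_pos (by positivity)
        rw [this, Nat.factorial_succ (j + 1)]
        push_cast
        ring
      have hne : (taylor ((i : ℝ) + 1) P - P).coeff (j + 1) ≠ 0 := by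
        intro h0
        rw [h0, abs_zero, mul_zero] at hcf2
        have := mul_pos hlampos hi1
        linarith
      have hsm : ((j + 1)! : ℝ) * |(taylor ((i : ℝ) + 1) P - P).coeff (j + 1)| *
          (N : ℝ) ^ j ≤ 1 / 2 := by
        rw [hcf2]
        refine le_trans ?_ hs
        have hiN : (i : ℝ) + 1 ≤ N := by exact_mod_cast (by omega : i + 1 ≤ N)
        calc lam * ((i : ℝ) + 1) * (N : ℝ) ^ j ≤ lam * N * (N : ℝ) ^ j := by gcongr
          _ = _ := by rw [pow_succ]; ring
      have h2 := ih (taylor ((i : ℝ) + 1) P - P) N hN hd hne hsm (M - 1 - i) (by omega)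
      rw [hcf2] at h2
      have h3 : ∑ y ∈ range (M - 1 - i), e (P.eval ((y + i + 1 : ℕ) : ℝ) - P.eval (y : ℝ)) =
          ∑ y ∈ range (M - 1 - i), e ((taylor ((i : ℝ) + 1) P - P).eval (y : ℝ)) := by
        refine Finset.sum_congr rfl fun y _ => ?_
        rw [eval_sub, taylor_eval]
        congr 3
        push_cast
        ring
      rw [hE]
      simp only
      rw [h3]
      refine h2.trans (le_of_eq ?_)
      field_simp
    have hE0 : ∀ i, 0 ≤ E i := fun i => norm_nonneg _
    have h4 := weyl_step (fun y => P.eval (y : ℝ)) M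
    have h5 : (∑ i ∈ range M, E i) ^ (2 ^ j) ≤ (N : ℝ) ^ (2 ^ j - 1) *
        (4 ^ (2 ^ j) * (N : ℝ) ^ (2 ^ j - j - 1) * (1 + Real.log N) ^ j / lam *
          (1 + Real.log N)) := by
      have e1 : 2 ^ j = (2 ^ j - 1) + 1 := by
        have : 0 < 2 ^ j := by positivity
        omega
      have h6 := pow_sum_le_card_mul_sum_pow (s := range M) (f := E) (fun i _ => hE0 i)
        (2 ^ j - 1)
      rw [← e1, card_range] at h6
      refine h6.trans ?_
      have h7 : ∑ i ∈ range M, E i ^ (2 ^ j) ≤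
          4 ^ (2 ^ j) * (N : ℝ) ^ (2 ^ j - j - 1) * (1 + Real.log N) ^ j / lam *
          (1 + Real.log N) := by
        refine (Finset.sum_le_sum h1).trans ?_
        rw [← Finset.mul_sum]
        refine mul_le_mul_of_nonneg_left (sum_inv_succ_le N M hM) (by positivity)
      have hMN : (M : ℝ) ≤ N := by exact_mod_cast hM
      refine mul_le_mul (pow_le_pow_left₀ (by positivity) hMN _) h7 ?_ (by positivity)
      exact Finset.sum_nonneg fun i _ => pow_nonneg (hE0 i) _
    have hpow : 2 ^ (j + 1) = 2 * 2 ^ j := by rw [pow_succ]; ring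
    have hj1 : j + 1 ≤ 2 ^ j := Nat.lt_two_pow_self
    set Z : ℝ := (N : ℝ) ^ (2 ^ (j + 1) - (j + 1) - 1) * (1 + Real.log N) ^ (j + 1) / lam with hZ
    have hZ1 : (N : ℝ) ^ (2 ^ j) ≤ 1 / 2 * Z := by
      rw [hZ]
      have h8 : (N : ℝ) ^ (2 ^ j) * lam ≤
          1 / 2 * (N : ℝ) ^ (2 ^ (j + 1) - (j + 1) - 1) := by
        have h9 : (N : ℝ) ^ (2 ^ j) * lam * (N : ℝ) ^ (j + 1) ≤
            1 / 2 * (N : ℝ) ^ (2 ^ (j + 1) - (j + 1) - 1) * (N : ℝ) ^ (j + 1) := by
          have e2 : 2 ^ (j + 1) - (j + 1) - 1 + (j + 1) = 2 ^ (j + 1) - 1 := by omega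
          calc (N : ℝ) ^ (2 ^ j) * lam * (N : ℝ) ^ (j + 1)
              = (N : ℝ) ^ (2 ^ j) * (lam * (N : ℝ) ^ (j + 1)) := by ring
            _ ≤ (N : ℝ) ^ (2 ^ j) * (1 / 2) := by gcongr
            _ ≤ (N : ℝ) ^ (2 ^ (j + 1) - 1) * (1 / 2) := by
                gcongr
                omega
            _ = _ := by rw [mul_assoc (1 / 2 : ℝ), ← pow_add, e2]; ring
        exact le_of_mul_le_mul_right h9 (by positivity)
      have h10 : (1 : ℝ) ≤ (1 + Real.log N) ^ (j + 1) := one_le_pow₀ (by linarith)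
      rw [mul_div_assoc', le_div_iff₀ hlampos]
      refine h8.trans ?_
      have h11 : 0 ≤ (N : ℝ) ^ (2 ^ (j + 1) - (j + 1) - 1) := by positivity
      nlinarith
    have hZ0 : 0 ≤ Z := by positivity
    have h12 : (2 * ∑ i ∈ range M, E i) ^ (2 ^ j) ≤ 8 ^ (2 ^ j) * Z := by
      rw [mul_pow]
      have e3 : (8 : ℝ) ^ (2 ^ j) = 2 ^ (2 ^ j) * 4 ^ (2 ^ j) := by
        rw [← mul_pow]; norm_num
      rw [e3, mul_assoc]
      refine mul_le_mul_of_nonneg_left (h5.trans (le_of_eq ?_)) (by positivity)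
      rw [hZ]
      have e4 : 2 ^ (j + 1) - (j + 1) - 1 = (2 ^ j - 1) + (2 ^ j - j - 1) := by omega
      rw [e4, pow_add, pow_succ (1 + Real.log N) j]
      ring
    have h13 : ‖∑ y ∈ range M, e (P.eval (y : ℝ))‖ ^ (2 ^ (j + 1)) ≤
        4 ^ (2 ^ (j + 1)) * Z := by
      rw [hpow, pow_mul]
      calc (‖∑ y ∈ range M, e (P.eval (y : ℝ))‖ ^ 2) ^ (2 ^ j)
          ≤ ((N : ℝ) + 2 * ∑ i ∈ range M, E i) ^ (2 ^ j) := by
            refine pow_le_pow_left₀ (by positivity) ?_ _
            have hMN : (M : ℝ) ≤ N := by exact_mod_cast hM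
            have h14 : ‖∑ y ∈ range M, e (P.eval (y : ℝ))‖ ^ 2 ≤
                M + 2 * ∑ i ∈ range M, E i := h4
            linarith
        _ ≤ 2 ^ (2 ^ j - 1) * ((N : ℝ) ^ (2 ^ j) + (2 * ∑ i ∈ range M, E i) ^ (2 ^ j)) := by
            refine add_pow_le (by positivity) ?_ _
            have := Finset.sum_nonneg fun i (_ : i ∈ range M) => hE0 i
            linarith
        _ ≤ 2 ^ (2 ^ j) * (8 ^ (2 ^ j) * Z) := by
            have h15 : (N : ℝ) ^ (2 ^ j) + (2 * ∑ i ∈ range M, E i) ^ (2 ^ j) ≤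
                2 * (8 ^ (2 ^ j) * Z) := by
              have : (1 : ℝ) ≤ 8 ^ (2 ^ j) := one_le_pow₀ (by norm_num)
              nlinarith
            have e5 : (2 : ℝ) ^ (2 ^ j) = 2 ^ (2 ^ j - 1) * 2 := by
              rw [← pow_succ]
              congr 1
              have : 0 < 2 ^ j := by positivity
              omega
            rw [e5, mul_assoc]
            exact mul_le_mul_of_nonneg_left h15 (by positivity)
        _ = 4 ^ (2 * 2 ^ j) * Z := by
            rw [← mul_assoc, ← mul_pow, pow_mul]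
            norm_num
    refine h13.trans (le_of_eq ?_)
    rw [hZ]
    ring

end Pool.Agent.ExpSum
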