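import Mathlib
import Pool.Agent.ExpSum.Weyl

/-!
Exponential sums with phase `∑ h_i n / x^(m+i)` on short blocks, via Taylor expansion and Weyl.
-/

namespace Pool.Agent.ExpSum

open Finset Nat Polynomial

/-- Truncated Taylor series of `(1 + s)^(-m)`. -/
noncomputable def tay (K m : ℕ) (s : ℝ) : ℝ :=
  ∑ l ∈ range (K + 1), (-1) ^ l * (m.multichoose l : ℝ) * s ^ l

theorem tay_zero (K : ℕ) (s : ℝ) : tay K 0 s = 1 := by
  rw [tay, Finset.sum_range_succ']
  simp [Nat.multichoose_zero_succ]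

theorem tay_rec (K m : ℕ) (s : ℝ) : (1 + s) * tay K (m + 1) s =
    tay K m s + (-1) ^ K * ((m + 1).multichoose K : ℝ) * s ^ (K + 1) := by
  induction K with
  | zero => simp [tay]
  | succ K ih =>
    have h1 : tay (K + 1) (m + 1) s = tay K (m + 1) s +
        (-1) ^ (K + 1) * ((m + 1).multichoose (K + 1) : ℝ) * s ^ (K + 1) := by
      rw [tay, Finset.sum_range_succ]; rfl
    have h2 : tay (K + 1) m s = tay K m s +
        (-1) ^ (K + 1) * (m.multichoose (K + 1) : ℝ) * s ^ (K + 1) := by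
      rw [tay, Finset.sum_range_succ]; rfl
    rw [h1, h2, mul_add, ih, Nat.multichoose_succ_succ]
    push_cast
    ring

theorem tay_error (K m : ℕ) {s : ℝ} (hs : 0 ≤ s) :
    |((1 + s) ^ m)⁻¹ - tay K m s| ≤ (m.multichoose (K + 1) : ℝ) * s ^ (K + 1) := by
  induction m with
  | zero => simp [tay_zero]
  | succ m ih =>
    have h1s : 0 < 1 + s := by linarith
    have e1 : ((1 + s) ^ (m + 1))⁻¹ - tay K (m + 1) s =
        ((((1 + s) ^ m)⁻¹ - tay K m s) -
          (-1) ^ K * ((m + 1).multichoose K : ℝ) * s ^ (K + 1)) / (1 + s) := by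
      have h := tay_rec K m s
      rw [eq_div_iff h1s.ne', sub_mul, mul_comm (tay K (m + 1) s), h, pow_succ, mul_inv,
        mul_assoc, inv_mul_cancel₀ h1s.ne']
      ring
    rw [e1, abs_div, abs_of_pos h1s]
    have h3 : |(-1) ^ K * ((m + 1).multichoose K : ℝ) * s ^ (K + 1)| =
        ((m + 1).multichoose K : ℝ) * s ^ (K + 1) := by
      rw [abs_mul, abs_mul, abs_pow, abs_neg, abs_one, one_pow, one_mul,
        abs_of_nonneg (Nat.cast_nonneg _), abs_of_nonneg (pow_nonneg hs _)]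
    have h4 := abs_sub (((1 + s) ^ m)⁻¹ - tay K m s)
      ((-1) ^ K * ((m + 1).multichoose K : ℝ) * s ^ (K + 1))
    rw [h3] at h4
    have h5 : 0 ≤ ((m + 1).multichoose (K + 1) : ℝ) * s ^ (K + 1) := by positivity
    rw [div_le_iff₀ h1s]
    have h6 : ((m + 1).multichoose (K + 1) : ℝ) =
        (m.multichoose (K + 1) : ℝ) + ((m + 1).multichoose K : ℝ) := by
      rw [Nat.multichoose_succ_succ]; push_cast; ring
    calc _ ≤ _ := h4
      _ ≤ ((m + 1).multichoose (K + 1) : ℝ) * s ^ (K + 1) := by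
          rw [h6, add_mul]
          linarith
      _ ≤ _ := by nlinarith

/-- `K! * multichoose m K`, between `m^K` and `(m + K)^K`. -/
theorem asc_eq (m K : ℕ) : (K ! : ℝ) * (m.multichoose K : ℝ) = (m.ascFactorial K : ℝ) := by
  rw [Nat.ascFactorial_eq_factorial_mul_choose', Nat.multichoose_eq]
  push_cast
  ring

theorem asc_ge (m K : ℕ) : (m : ℝ) ^ K ≤ (K ! : ℝ) * (m.multichoose K : ℝ) := by
  rw [asc_eq]
  exact_mod_cast Nat.pow_succ_le_ascFactorial m K

theorem asc_le (m K : ℕ) : (K ! : ℝ) * (m.multichoose K : ℝ) ≤ ((m : ℝ) + K) ^ K := by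
  rw [asc_eq]
  have h1 := Nat.ascFactorial_le K (Nat.le_succ m)
  have h2 := Nat.ascFactorial_le_pow_add m K
  exact_mod_cast h1.trans h2

/-- The phase `∑_{i ≤ r} h_i n / x^(m + i)`. -/
noncomputable def phase (n : ℝ) (r m : ℕ) (h : ℕ → ℝ) (x : ℝ) : ℝ :=
  ∑ i ∈ range (r + 1), h i * (n / x ^ (m + i))

/-- Taylor polynomial of `t ↦ n / (x0 + d t)^m`. -/
noncomputable def tpoly (n x0 d : ℝ) (K m : ℕ) : ℝ[X] :=
  ∑ l ∈ range (K + 1), C (n / x0 ^ m * ((-1) ^ l * (m.multichoose l : ℝ) * (d / x0) ^ l)) * X ^ l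

theorem tpoly_eval (n x0 d : ℝ) (K m : ℕ) (t : ℝ) :
    (tpoly n x0 d K m).eval t = n / x0 ^ m * tay K m (d * t / x0) := by
  rw [tpoly, eval_finsetSum, tay, Finset.mul_sum]
  refine Finset.sum_congr rfl fun l _ => ?_
  rw [eval_mul, eval_C, eval_pow, eval_X]
  rw [mul_div_right_comm, mul_pow]
  ring

theorem tpoly_natDegree (n x0 d : ℝ) (K m : ℕ) : (tpoly n x0 d K m).natDegree ≤ K := by
  refine Polynomial.natDegree_sum_le_of_forall_le _ _ fun l hl => ?_
  rw [mem_range] at hl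
  exact (natDegree_C_mul_X_pow_le _ _).trans (by omega)

theorem tpoly_coeff (n x0 d : ℝ) (K m : ℕ) : (tpoly n x0 d K m).coeff K =
    n / x0 ^ m * ((-1) ^ K * (m.multichoose K : ℝ) * (d / x0) ^ K) := by
  rw [tpoly, finsetSum_coeff]
  rw [Finset.sum_eq_single K]
  · rw [coeff_C_mul, coeff_X_pow_self, mul_one]
  · intro l _ hl
    rw [coeff_C_mul, coeff_X_pow, if_neg (Ne.symm hl), mul_zero]
  · intro h
    exact absurd (mem_range.2 (Nat.lt_succ_self K)) h

theorem tpoly_error {n x0 d : ℝ} (hn : 0 ≤ n) (hx : 0 < x0) (hd : 0 ≤ d) (K m : ℕ) {t : ℝ}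
    (ht : 0 ≤ t) :
    |n / (x0 + d * t) ^ m - (tpoly n x0 d K m).eval t| ≤
      n / x0 ^ m * ((m.multichoose (K + 1) : ℝ) * (d * t / x0) ^ (K + 1)) := by
  have hs : 0 ≤ d * t / x0 := by positivity
  rw [tpoly_eval]
  have e1 : n / (x0 + d * t) ^ m = n / x0 ^ m * ((1 + d * t / x0) ^ m)⁻¹ := by
    have : x0 + d * t = x0 * (1 + d * t / x0) := by field_simp
    rw [this, mul_pow, div_mul_eq_div_div, div_eq_mul_inv (n / x0 ^ m)]
  rw [e1, ← mul_sub, abs_mul, abs_of_nonneg (by positivity : 0 ≤ n / x0 ^ m)]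
  exact mul_le_mul_of_nonneg_left (tay_error K m hs) (by positivity)

/-- Exponential sum bound on a short block. -/
theorem block {n x0 d T : ℝ} {r m K N : ℕ} {h : ℕ → ℝ} (hn : 0 < n) (hx : 1 ≤ x0) (hd : 0 < d)
    (hm : 1 ≤ m) (hN : 1 ≤ N) (hh0 : 1 ≤ |h 0|) (hh : ∀ i ∈ range (r + 1), |h i| ≤ T)
    (hdom : 2 * T * ((r : ℝ) + K + 3) ^ (K + 2) ≤ x0)
    {Lam : ℝ} (hLam : Lam = n / x0 ^ m * (m * d / x0) ^ (K + 1))
    (hsmall : 2 * T * ((K : ℝ) + 2) ^ (K + 1) * Lam * (N : ℝ) ^ K ≤ 1 / 2)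
    {B : ℝ} (hB : 0 ≤ B)
    (hBw : 4 ^ (2 ^ K) * (N : ℝ) ^ (2 ^ K - K - 1) * (1 + Real.log N) ^ K * 2 / Lam ≤
      B ^ (2 ^ K))
    {eta : ℝ} (heta : 2 * T * ((r : ℝ) + K + 3) ^ (K + 2) * Lam * (m * d / x0) *
      (N : ℝ) ^ (K + 2) ≤ eta) {M : ℕ} (hM : M ≤ N) :
    ‖∑ t ∈ range M, e (phase n r m h (x0 + d * t))‖ ≤ B + 2 * Real.pi * eta * N := by
  have hx0 : 0 < x0 := by linarith
  have hT1 : 1 ≤ T := hh0.trans (hh 0 (mem_range.2 (Nat.succ_pos r)))
  have hmr : (1 : ℝ) ≤ m := by exact_mod_cast hm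
  have hLam0 : 0 < Lam := by rw [hLam]; positivity
  -- bound for ascending factorials
  have hasc : ∀ (K' : ℕ), K' ≤ K + 2 → ∀ i, i ≤ r → (((K' : ℕ)! : ℕ) : ℝ) *
      ((m + i).multichoose K' : ℝ) ≤ (m : ℝ) ^ K' * ((r : ℝ) + K + 3) ^ K' := by
    intro K' hK' i hi
    refine (asc_le (m + i) K').trans ?_
    rw [← mul_pow]
    refine pow_le_pow_left₀ (by positivity) ?_ _
    have h1 : (i : ℝ) ≤ r := by exact_mod_cast hi
    have h2 : (K' : ℝ) ≤ K + 2 := by exact_mod_cast hK'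
    push_cast
    have h3 : (0 : ℝ) ≤ ((m : ℝ) - 1) * ((r : ℝ) + K + 2) := by
      refine mul_nonneg (by linarith) (by positivity)
    have h4 : (m : ℝ) * ((r : ℝ) + K + 3) = m + ((r : ℝ) + K + 2) +
        ((m : ℝ) - 1) * ((r : ℝ) + K + 2) := by ring
    linarith
  have hr0 : (0 : ℝ) ≤ r := by positivity
  have hK0 : (0 : ℝ) ≤ K := by positivity
  have hbase : (1 : ℝ) ≤ (r : ℝ) + K + 3 := by linarith
  -- the tail sum factor
  have htail : ∀ K' : ℕ, K' ≤ K + 1 → ((r : ℝ) * (T * ((r : ℝ) + K + 3) ^ K')) / x0 ≤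
      1 / 2 := by
    intro K' hK'
    rw [div_le_iff₀ hx0]
    have h1 : ((r : ℝ) + K + 3) ^ K' * ((r : ℝ) + K + 3) ≤
        ((r : ℝ) + K + 3) ^ (K + 2) := by
      rw [← pow_succ]
      exact pow_le_pow_right₀ hbase (by omega)
    have h2 : (r : ℝ) * (T * ((r : ℝ) + K + 3) ^ K') ≤
        T * (((r : ℝ) + K + 3) ^ K' * ((r : ℝ) + K + 3)) := by
      have : 0 ≤ T * ((r : ℝ) + K + 3) ^ K' := by positivity
      nlinarith
    have h3 : T * (((r : ℝ) + K + 3) ^ K' * ((r : ℝ) + K + 3)) ≤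
        T * ((r : ℝ) + K + 3) ^ (K + 2) := mul_le_mul_of_nonneg_left h1 (by linarith)
    linarith
  have hxi : ∀ i : ℕ, n / x0 ^ (m + (i + 1)) ≤ n / x0 ^ m / x0 := by
    intro i
    rw [div_div, ← pow_succ]
    refine div_le_div_of_nonneg_left hn.le (by positivity) ?_
    exact pow_le_pow_right₀ hx (by omega)
  -- polynomial
  set P : ℝ[X] := ∑ i ∈ range (r + 1), C (h i) * tpoly n x0 d (K + 1) (m + i) with hP
  have hdeg : P.natDegree ≤ K + 1 := by
    refine Polynomial.natDegree_sum_le_of_forall_le _ _ fun i _ => ?_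
    exact (natDegree_C_mul_le _ _).trans (tpoly_natDegree _ _ _ _ _)
  have hcoef : (((K + 1)! : ℕ) : ℝ) * P.coeff (K + 1) = (-1) ^ (K + 1) * (d / x0) ^ (K + 1) *
      ∑ i ∈ range (r + 1), h i * (n / x0 ^ (m + i)) *
        ((((K + 1)! : ℕ) : ℝ) * ((m + i).multichoose (K + 1) : ℝ)) := by
    rw [hP, finsetSum_coeff, Finset.mul_sum, Finset.mul_sum]
    refine Finset.sum_congr rfl fun i _ => ?_
    rw [coeff_C_mul, tpoly_coeff]
    ring
  set A0 : ℝ := n / x0 ^ m * (((K + 1)! : ℕ) : ℝ) * (m.multichoose (K + 1) : ℝ) with hA0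
  set A1 : ℝ := n / x0 ^ m * (m : ℝ) ^ (K + 1) with hA1
  have hA1pos : 0 < A1 := by positivity
  have hA01 : A1 ≤ A0 := by
    rw [hA0, hA1, mul_assoc]
    exact mul_le_mul_of_nonneg_left (asc_ge m (K + 1)) (by positivity)
  have hA02 : A0 ≤ A1 * ((K : ℝ) + 2) ^ (K + 1) := by
    rw [hA0, hA1, mul_assoc, mul_assoc]
    refine mul_le_mul_of_nonneg_left ?_ (by positivity)
    refine (asc_le m (K + 1)).trans ?_
    rw [← mul_pow]
    refine pow_le_pow_left₀ (by positivity) ?_ _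
    push_cast
    nlinarith
  have hsum_split : ∑ i ∈ range (r + 1), h i * (n / x0 ^ (m + i)) *
        ((((K + 1)! : ℕ) : ℝ) * ((m + i).multichoose (K + 1) : ℝ)) =
      ∑ i ∈ range r, h (i + 1) * (n / x0 ^ (m + (i + 1))) *
        ((((K + 1)! : ℕ) : ℝ) * ((m + (i + 1)).multichoose (K + 1) : ℝ)) + h 0 * A0 := by
    rw [Finset.sum_range_succ', hA0]
    simp only [add_zero]
    ring
  have hrest : |∑ i ∈ range r, h (i + 1) * (n / x0 ^ (m + (i + 1))) *
        ((((K + 1)! : ℕ) : ℝ) * ((m + (i + 1)).multichoose (K + 1) : ℝ))| ≤ 1 / 2 * A1 := by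
    refine (Finset.abs_sum_le_sum_abs _ _).trans ?_
    calc ∑ i ∈ range r, |h (i + 1) * (n / x0 ^ (m + (i + 1))) *
          ((((K + 1)! : ℕ) : ℝ) * ((m + (i + 1)).multichoose (K + 1) : ℝ))|
        ≤ ∑ i ∈ range r, T * (n / x0 ^ m / x0) *
          ((m : ℝ) ^ (K + 1) * ((r : ℝ) + K + 3) ^ (K + 1)) := by
          refine Finset.sum_le_sum fun i hi => ?_
          rw [mem_range] at hi
          rw [abs_mul, abs_mul]
          have h1 := hh (i + 1) (mem_range.2 (by omega))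
          have h2 := hxi i
          have h3 := hasc (K + 1) (by omega) (i + 1) (by omega)
          have h4 : |n / x0 ^ (m + (i + 1))| = n / x0 ^ (m + (i + 1)) :=
            abs_of_nonneg (by positivity)
          have h5 : |(((K + 1)! : ℕ) : ℝ) * ((m + (i + 1)).multichoose (K + 1) : ℝ)| =
              (((K + 1)! : ℕ) : ℝ) * ((m + (i + 1)).multichoose (K + 1) : ℝ) :=
            abs_of_nonneg (by positivity)
          rw [h4, h5]
          gcongr
      _ = A1 * (((r : ℝ) * (T * ((r : ℝ) + K + 3) ^ (K + 1))) / x0) := by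
          rw [Finset.sum_const, card_range, nsmul_eq_mul, hA1]
          ring
      _ ≤ A1 * (1 / 2) := mul_le_mul_of_nonneg_left (htail (K + 1) le_rfl) hA1pos.le
      _ = _ := by ring
  have hLamA : Lam = A1 * (d / x0) ^ (K + 1) := by
    rw [hLam, hA1, mul_assoc, ← mul_pow]
    congr 2
    ring
  have hq : 0 < (d / x0) ^ (K + 1) := by positivity
  have habs : (((K + 1)! : ℕ) : ℝ) * |P.coeff (K + 1)| = (d / x0) ^ (K + 1) *
      |∑ i ∈ range (r + 1), h i * (n / x0 ^ (m + i)) *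
        ((((K + 1)! : ℕ) : ℝ) * ((m + i).multichoose (K + 1) : ℝ))| := by
    have h1 : (((K + 1)! : ℕ) : ℝ) * |P.coeff (K + 1)| =
        |(((K + 1)! : ℕ) : ℝ) * P.coeff (K + 1)| := by
      rw [abs_mul, abs_of_nonneg (Nat.cast_nonneg (α := ℝ) ((K + 1)!))]
    rw [h1, hcoef, abs_mul, abs_mul, abs_pow, abs_neg, abs_one, one_pow, one_mul,
      abs_of_pos hq]
  have hlow : 1 / 2 * Lam ≤ (((K + 1)! : ℕ) : ℝ) * |P.coeff (K + 1)| := by
    rw [habs, hsum_split, hLamA]
    have h1 : 1 / 2 * A1 ≤ |∑ i ∈ range r, h (i + 1) * (n / x0 ^ (m + (i + 1))) *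
        ((((K + 1)! : ℕ) : ℝ) * ((m + (i + 1)).multichoose (K + 1) : ℝ)) + h 0 * A0| := by
      have h2 : A1 ≤ |h 0 * A0| := by
        rw [abs_mul, abs_of_pos (hA1pos.trans_le hA01)]
        nlinarith
      have h3 := abs_sub_abs_le_abs_add (h 0 * A0) (∑ i ∈ range r, h (i + 1) *
        (n / x0 ^ (m + (i + 1))) *
        ((((K + 1)! : ℕ) : ℝ) * ((m + (i + 1)).multichoose (K + 1) : ℝ)))
      rw [add_comm (h 0 * A0)] at h3
      linarith
    nlinarith
  have hup : (((K + 1)! : ℕ) : ℝ) * |P.coeff (K + 1)| ≤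
      2 * T * ((K : ℝ) + 2) ^ (K + 1) * Lam := by
    rw [habs, hsum_split, hLamA]
    have h2 : |h 0 * A0| ≤ T * (A1 * ((K : ℝ) + 2) ^ (K + 1)) := by
      rw [abs_mul, abs_of_pos (hA1pos.trans_le hA01)]
      exact mul_le_mul (hh 0 (mem_range.2 (Nat.succ_pos r))) hA02
        (hA1pos.le.trans hA01) (by linarith)
    have h3 : 1 / 2 * A1 ≤ T * (A1 * ((K : ℝ) + 2) ^ (K + 1)) := by
      have h4 : (1 : ℝ) ≤ ((K : ℝ) + 2) ^ (K + 1) := one_le_pow₀ (by linarith)
      have h5 : A1 * 1 ≤ A1 * ((K : ℝ) + 2) ^ (K + 1) :=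
        mul_le_mul_of_nonneg_left h4 hA1pos.le
      have h6 : 1 * (A1 * ((K : ℝ) + 2) ^ (K + 1)) ≤ T * (A1 * ((K : ℝ) + 2) ^ (K + 1)) :=
        mul_le_mul_of_nonneg_right hT1 (by linarith)
      linarith
    have h1 := (abs_add_le (∑ i ∈ range r, h (i + 1) * (n / x0 ^ (m + (i + 1))) *
        ((((K + 1)! : ℕ) : ℝ) * ((m + (i + 1)).multichoose (K + 1) : ℝ))) (h 0 * A0)).trans
      (add_le_add hrest h2)
    refine (mul_le_mul_of_nonneg_left (h1.trans (add_le_add_left h3 _)) hq.le).trans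
      (le_of_eq ?_)
    ring
  have hne : P.coeff (K + 1) ≠ 0 := by
    intro h0
    rw [h0, abs_zero, mul_zero] at hlow
    linarith
  have hs : (((K + 1)! : ℕ) : ℝ) * |P.coeff (K + 1)| * (N : ℝ) ^ K ≤ 1 / 2 := by
    refine le_trans ?_ hsmall
    exact mul_le_mul_of_nonneg_right hup (by positivity)
  have hW := weyl K P N hN hdeg hne hs M hM
  have hNr : (1 : ℝ) ≤ N := by exact_mod_cast hN
  have hlogN : 0 ≤ Real.log N := Real.log_nonneg hNr
  have hWB : ‖∑ y ∈ range M, e (P.eval (y : ℝ))‖ ≤ B := by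
    have h1 : ‖∑ y ∈ range M, e (P.eval (y : ℝ))‖ ^ (2 ^ K) ≤ B ^ (2 ^ K) := by
      refine hW.trans (le_trans ?_ hBw)
      have h2 : 0 < 1 / 2 * Lam := by linarith
      calc _ ≤ 4 ^ (2 ^ K) * (N : ℝ) ^ (2 ^ K - K - 1) * (1 + Real.log N) ^ K /
            (1 / 2 * Lam) := by
            refine div_le_div_of_nonneg_left (by positivity) h2 hlow
        _ = _ := by field_simp
    exact le_of_pow_le_pow_left₀ (by positivity) hB h1
  -- Taylor error
  have herr : ∀ t ∈ range M, |phase n r m h (x0 + d * t) - P.eval (t : ℝ)| ≤ eta := by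
    intro t ht
    rw [mem_range] at ht
    have htN : (t : ℝ) ≤ N := by exact_mod_cast (by omega : t ≤ N)
    have ht0 : (0 : ℝ) ≤ t := by positivity
    have e1 : phase n r m h (x0 + d * t) - P.eval (t : ℝ) =
        ∑ i ∈ range (r + 1), h i * (n / (x0 + d * t) ^ (m + i) -
          (tpoly n x0 d (K + 1) (m + i)).eval (t : ℝ)) := by
      rw [phase, hP, eval_finsetSum, ← Finset.sum_sub_distrib]
      refine Finset.sum_congr rfl fun i _ => ?_
      rw [eval_mul, eval_C]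
      ring
    rw [e1]
    refine (Finset.abs_sum_le_sum_abs _ _).trans ?_
    set Q : ℝ := n / x0 ^ m * ((m : ℝ) ^ (K + 2) * ((r : ℝ) + K + 3) ^ (K + 2) *
      (d * N / x0) ^ (K + 2)) with hQ
    have hQ0 : 0 ≤ Q := by positivity
    have h1 : ∀ i ∈ range (r + 1), |h i * (n / (x0 + d * t) ^ (m + i) -
          (tpoly n x0 d (K + 1) (m + i)).eval (t : ℝ))| ≤
        T * (if i = 0 then Q else Q / x0) := by
      intro i hi
      rw [abs_mul]
      refine mul_le_mul (hh i hi) ?_ (abs_nonneg _) (by linarith)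
      refine (tpoly_error hn.le hx0 hd.le (K + 1) (m + i) ht0).trans ?_
      rw [mem_range] at hi
      have h2 : ((m + i).multichoose (K + 1 + 1) : ℝ) * (d * t / x0) ^ (K + 1 + 1) ≤
          (m : ℝ) ^ (K + 2) * ((r : ℝ) + K + 3) ^ (K + 2) * (d * N / x0) ^ (K + 2) := by
        have h3 := hasc (K + 2) le_rfl i (by omega)
        have h4 : ((m + i).multichoose (K + 2) : ℝ) ≤
            (m : ℝ) ^ (K + 2) * ((r : ℝ) + K + 3) ^ (K + 2) := by
          refine le_trans ?_ h3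
          have h5 : (1 : ℝ) ≤ ((K + 2)! : ℕ) := by
            exact_mod_cast Nat.succ_le_of_lt (Nat.factorial_pos (K + 2))
          have h6 : (0 : ℝ) ≤ ((m + i).multichoose (K + 2) : ℝ) := by positivity
          nlinarith
        refine mul_le_mul h4 ?_ (by positivity) (by positivity)
        refine pow_le_pow_left₀ (by positivity) ?_ _
        gcongr
      by_cases h0 : i = 0
      · subst h0
        rw [if_pos rfl, hQ, add_zero]
        rw [add_zero] at h2
        exact mul_le_mul_of_nonneg_left h2 (by positivity)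
      · rw [if_neg h0]
        obtain ⟨i', rfl⟩ : ∃ i', i = i' + 1 := ⟨i - 1, by omega⟩
        have h7 := hxi i'
        calc n / x0 ^ (m + (i' + 1)) * (((m + (i' + 1)).multichoose (K + 1 + 1) : ℝ) *
              (d * t / x0) ^ (K + 1 + 1))
            ≤ n / x0 ^ m / x0 * ((m : ℝ) ^ (K + 2) * ((r : ℝ) + K + 3) ^ (K + 2) *
              (d * N / x0) ^ (K + 2)) := mul_le_mul h7 h2 (by positivity) (by positivity)
          _ = Q / x0 := by rw [hQ]; ring
    refine (Finset.sum_le_sum h1).trans ?_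
    rw [← Finset.mul_sum, Finset.sum_range_succ']
    simp only [Nat.succ_ne_zero, if_false, if_true]
    rw [Finset.sum_const, card_range, nsmul_eq_mul]
    have h8 : (r : ℝ) * (Q / x0) ≤ Q := by
      have h9 : (r : ℝ) ≤ x0 := by
        refine le_trans ?_ hdom
        have h10 : (r : ℝ) + K + 3 ≤ ((r : ℝ) + K + 3) ^ (K + 2) :=
          le_self_pow₀ hbase (by omega)
        have h11 : ((r : ℝ) + K + 3) ^ (K + 2) ≤
            2 * T * ((r : ℝ) + K + 3) ^ (K + 2) := by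
          have : 0 ≤ ((r : ℝ) + K + 3) ^ (K + 2) := by positivity
          nlinarith
        linarith
      rw [mul_div_assoc', div_le_iff₀ hx0, mul_comm]
      exact mul_le_mul_of_nonneg_left h9 hQ0
    have h12 : T * ((r : ℝ) * (Q / x0) + Q) ≤ 2 * T * Q := by nlinarith
    refine h12.trans (le_trans (le_of_eq ?_) heta)
    rw [hQ, hLam]
    rw [div_pow, div_pow, mul_pow, mul_pow]
    field_simp
    ring
  have hsum : ‖∑ t ∈ range M, e (phase n r m h (x0 + d * t)) -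
      ∑ t ∈ range M, e (P.eval (t : ℝ))‖ ≤ 2 * Real.pi * eta * N := by
    rw [← Finset.sum_sub_distrib]
    refine (norm_sum_le _ _).trans ?_
    have hpi := Real.pi_pos
    calc ∑ t ∈ range M, ‖e (phase n r m h (x0 + d * t)) - e (P.eval (t : ℝ))‖
        ≤ ∑ t ∈ range M, 2 * Real.pi * eta := by
          refine Finset.sum_le_sum fun t ht => ?_
          refine (norm_e_sub_le _ _).trans ?_
          exact mul_le_mul_of_nonneg_left (herr t ht) (by positivity)
      _ = 2 * Real.pi * eta * M := by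
          rw [Finset.sum_const, card_range, nsmul_eq_mul]; ring
      _ ≤ _ := by
          have hMN : (M : ℝ) ≤ N := by exact_mod_cast hM
          have heta0 : 0 ≤ eta := by
            refine le_trans ?_ heta
            positivity
          gcongr
  have := norm_sub_norm_le (∑ t ∈ range M, e (phase n r m h (x0 + d * t)))
    (∑ t ∈ range M, e (P.eval (t : ℝ)))
  linarith

end Pool.Agent.ExpSum
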