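import Mathlib
import Pool.Agent.ExpSum.Block

/-!
Instantiation of the block bound with `N` chosen according to the size of `n / P^m`.
-/

namespace Pool.Agent.ExpSum

open Finset Nat

/-- Splitting a sum over an interval into blocks of length `N`. -/
theorem sum_blocks (F : ℕ → ℂ) {N : ℕ} (hN : 1 ≤ N) {B : ℝ} (hB : 0 ≤ B) (b : ℕ) :
    ∀ (k a : ℕ), b - a ≤ k →
    (∀ y0, a < y0 → y0 ≤ b → ∀ M ≤ N, ‖∑ t ∈ range M, F (y0 + t)‖ ≤ B) →
    ‖∑ y ∈ Ioc a b, F y‖ ≤ (((b - a : ℕ) : ℝ) / N + 1) * B := by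
  intro k
  induction k with
  | zero =>
    intro a hk _
    have : Ioc a b = ∅ := by
      rw [Finset.Ioc_eq_empty]
      omega
    rw [this, Finset.sum_empty, norm_zero]
    positivity
  | succ k ih =>
    intro a hk h
    have hNr : (0 : ℝ) < N := by exact_mod_cast hN
    by_cases hab : b ≤ a
    · have : Ioc a b = ∅ := by
        rw [Finset.Ioc_eq_empty]
        omega
      rw [this, Finset.sum_empty, norm_zero]
      positivity
    push Not at hab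
    have hIoc : ∀ c, a ≤ c → ∑ y ∈ Ioc a c, F y = ∑ t ∈ range (c - a), F (a + 1 + t) := by
      intro c hc
      have e1 : Ioc a c = Ico (a + 1) (c + 1) := by
        ext x; simp only [mem_Ioc, mem_Ico]; omega
      rw [e1, Finset.sum_Ico_eq_sum_range]
      congr 2
      omega
    by_cases hs : b - a ≤ N
    · rw [hIoc b hab.le]
      refine (h (a + 1) (by omega) (by omega) _ hs).trans ?_
      have : 0 ≤ ((b - a : ℕ) : ℝ) / N := by positivity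
      nlinarith
    · push Not at hs
      have e1 : ∑ y ∈ Ioc a b, F y = ∑ y ∈ Ioc a (a + N), F y + ∑ y ∈ Ioc (a + N) b, F y := by
        rw [← Finset.sum_union]
        · congr 1
          ext x; simp only [mem_Ioc, mem_union]; omega
        · rw [Finset.disjoint_left]
          intro x hx hx2
          rw [mem_Ioc] at hx hx2
          omega
      rw [e1]
      have h1 : ‖∑ y ∈ Ioc a (a + N), F y‖ ≤ B := by
        rw [hIoc (a + N) (by omega), Nat.add_sub_cancel_left]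
        exact h (a + 1) (by omega) (by omega) N le_rfl
      have h2 := ih (a + N) (by omega) fun y0 hy0 hy0' M hM => h y0 (by omega) hy0' M hM
      have e2 : ((b - (a + N) : ℕ) : ℝ) = ((b - a : ℕ) : ℝ) - N := by
        rw [show b - (a + N) = (b - a) - N by omega, Nat.cast_sub hs.le]
      rw [e2] at h2
      refine (norm_add_le _ _).trans ((add_le_add h1 h2).trans (le_of_eq ?_))
      rw [sub_div, div_self hNr.ne']
      ring

theorem exists_N {q : ℝ} (hq0 : 0 < q) {k : ℕ} (hk : 1 ≤ k) (hq1 : q ≤ 1) :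
    ∃ N : ℕ, 1 ≤ N ∧ q * (N : ℝ) ^ k ≤ 1 ∧ 1 / q ≤ (2 * (N : ℝ)) ^ k := by
  have hkne : (k : ℝ) ≠ 0 := by
    have : k ≠ 0 := by omega
    exact_mod_cast this
  have hrt : ((1 / q) ^ ((1 : ℝ) / k)) ^ k = 1 / q := by
    rw [← Real.rpow_natCast, ← Real.rpow_mul (by positivity), one_div_mul_cancel hkne,
      Real.rpow_one]
  have hq1' : 1 ≤ 1 / q := by
    rw [le_div_iff₀ hq0, one_mul]
    exact hq1
  have hN1 : 1 ≤ ⌊(1 / q) ^ ((1 : ℝ) / k)⌋₊ := by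
    rw [Nat.one_le_floor_iff]
    exact Real.one_le_rpow hq1' (by positivity)
  have hNr : (1 : ℝ) ≤ ⌊(1 / q) ^ ((1 : ℝ) / k)⌋₊ := by exact_mod_cast hN1
  refine ⟨_, hN1, ?_, ?_⟩
  · have hNle : ((⌊(1 / q) ^ ((1 : ℝ) / k)⌋₊ : ℕ) : ℝ) ^ k ≤ 1 / q := by
      rw [← hrt]
      refine pow_le_pow_left₀ (by positivity) ?_ k
      rw [hrt]
      exact Nat.floor_le (by positivity)
    rw [le_div_iff₀ hq0] at hNle
    linarith
  · have hNlt : 1 / q < (((⌊(1 / q) ^ ((1 : ℝ) / k)⌋₊ : ℕ) : ℝ) + 1) ^ k := by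
      conv_lhs => rw [← hrt]
      exact pow_lt_pow_left₀ (Nat.lt_floor_add_one _) (by positivity) (by omega)
    exact hNlt.le.trans (pow_le_pow_left₀ (by positivity) (by linarith) k)

theorem pow_eq_exp {x : ℝ} (hx : 0 < x) (j : ℕ) : x ^ j = Real.exp (j * Real.log x) := by
  rw [mul_comm, Real.exp_mul, Real.exp_log hx, Real.rpow_natCast]

theorem L_facts {L : ℝ} {kap : ℕ} (hk8 : 8 ≤ kap) (hL : 0 < L) (hlog : 1 ≤ Real.log L)
    (H1 : 64 * (kap : ℝ) * 2 ^ kap * Real.log L ≤ L) :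
    2.7 ≤ L ∧ (2 : ℝ) ^ kap ≤ L ∧ (kap : ℝ) + 1 ≤ L ∧ 512 * Real.log L ≤ L ∧
      64 * (2 ^ kap * Real.log L) * kap ≤ L := by
  have hLe : Real.exp 1 ≤ L := by
    rw [← Real.le_log_iff_exp_le hL]; exact hlog
  have hkr : (8 : ℝ) ≤ kap := by exact_mod_cast hk8
  have h2k : (1 : ℝ) ≤ 2 ^ kap := one_le_pow₀ (by norm_num)
  have h1 : 2.7 ≤ L := by
    have := Real.exp_one_gt_d9
    linarith
  have h5 : 64 * (2 ^ kap * Real.log L) * kap ≤ L := by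
    refine le_trans (le_of_eq ?_) H1
    ring
  have h6 : (2 : ℝ) ^ kap * 1 ≤ 2 ^ kap * Real.log L :=
    mul_le_mul_of_nonneg_left hlog (by positivity)
  have h7 : 64 * (2 ^ kap * Real.log L) * 8 ≤ 64 * (2 ^ kap * Real.log L) * kap :=
    mul_le_mul_of_nonneg_left hkr (by positivity)
  have h8 : (2 : ℝ) ^ kap ≤ L := by linarith
  have h9 : (kap : ℝ) + 1 ≤ 2 ^ kap := by
    have : kap + 1 ≤ 2 ^ kap := Nat.lt_two_pow_self
    exact_mod_cast this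
  have h10 : 1 * Real.log L ≤ 2 ^ kap * Real.log L :=
    mul_le_mul_of_nonneg_right h2k (by linarith)
  exact ⟨h1, h8, h9.trans h8, by linarith, h5⟩

theorem main_cond {L : ℝ} {kap k N : ℕ} (hk8 : 8 ≤ kap) (hk : 1 ≤ k) (hkk : k + 1 ≤ kap)
    (hL : 0 < L) (hlog : 1 ≤ Real.log L)
    (H1 : 64 * (kap : ℝ) * 2 ^ kap * Real.log L ≤ L) (hN : 1 ≤ N)
    (hlogN : Real.log N ≤ 2 / 7 * L) (hlogN2 : L / (2 * k) - Real.log 2 ≤ Real.log N) :
    32 * 2 ^ k * ((k : ℝ) + 2) ^ (k + 1) * (1 + Real.log N) ^ k * L ^ (8 * 2 ^ k) ≤ N := by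
  obtain ⟨f1, f2, f3, f4, f5⟩ := L_facts hk8 hL hlog H1
  have hNr : (1 : ℝ) ≤ N := by exact_mod_cast hN
  have hlogN0 : 0 ≤ Real.log N := Real.log_nonneg hNr
  have hkr : (k : ℝ) + 1 ≤ kap := by exact_mod_cast hkk
  have hk0 : (0 : ℝ) < k := by
    have : 0 < k := by omega
    exact_mod_cast this
  have hLHS : 32 * 2 ^ k * ((k : ℝ) + 2) ^ (k + 1) * (1 + Real.log N) ^ k *
      L ^ (8 * 2 ^ k) ≤ Real.exp ((4 + 3 * kap + 4 * 2 ^ kap) * Real.log L) := by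
    have a1 : (32 : ℝ) ≤ L ^ 4 := by
      calc (32 : ℝ) ≤ 2.7 ^ 4 := by norm_num
        _ ≤ L ^ 4 := pow_le_pow_left₀ (by norm_num) f1 4
    have a2 : (2 : ℝ) ^ k ≤ L ^ k := pow_le_pow_left₀ (by norm_num) (by linarith) k
    have a3 : ((k : ℝ) + 2) ^ (k + 1) ≤ L ^ (k + 1) :=
      pow_le_pow_left₀ (by positivity) (by linarith) _
    have a4 : (1 + Real.log N) ^ k ≤ L ^ k := by
      refine pow_le_pow_left₀ (by linarith) ?_ k
      linarith
    calc 32 * 2 ^ k * ((k : ℝ) + 2) ^ (k + 1) * (1 + Real.log N) ^ k * L ^ (8 * 2 ^ k)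
        ≤ L ^ 4 * L ^ k * L ^ (k + 1) * L ^ k * L ^ (8 * 2 ^ k) := by gcongr
      _ = L ^ (4 + k + (k + 1) + k + 8 * 2 ^ k) := by
          rw [← pow_add, ← pow_add, ← pow_add, ← pow_add]
      _ = Real.exp (((4 + k + (k + 1) + k + 8 * 2 ^ k : ℕ) : ℝ) * Real.log L) :=
          pow_eq_exp hL _
      _ ≤ _ := by
          refine Real.exp_le_exp.2 (mul_le_mul_of_nonneg_right ?_ (by linarith))
          have h5 : 4 + k + (k + 1) + k + 8 * 2 ^ k ≤ 4 + 3 * kap + 4 * 2 ^ kap := by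
            have h6 : 2 ^ (k + 1) ≤ 2 ^ kap := Nat.pow_le_pow_right (by norm_num) (by omega)
            rw [pow_succ] at h6
            omega
          exact_mod_cast h5
  refine hLHS.trans ?_
  have hN' : (N : ℝ) = Real.exp (Real.log N) := (Real.exp_log (by linarith)).symm
  rw [hN']
  refine Real.exp_le_exp.2 (le_trans ?_ hlogN2)
  have h7 : L / (2 * kap) ≤ L / (2 * k) := by
    refine div_le_div_of_nonneg_left hL.le (by positivity) ?_
    linarith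
  have hkap0 : (0 : ℝ) < kap := by linarith
  have h8 : 32 * (2 ^ kap * Real.log L) ≤ L / (2 * kap) := by
    rw [le_div_iff₀ (by positivity)]
    refine le_trans (le_of_eq ?_) f5
    ring
  have h9 : 4 + 3 * (kap : ℝ) + 4 * 2 ^ kap + 1 ≤ 32 * 2 ^ kap := by
    have : (kap : ℝ) + 1 ≤ 2 ^ kap := by
      have : kap + 1 ≤ 2 ^ kap := Nat.lt_two_pow_self
      exact_mod_cast this
    have : (1 : ℝ) ≤ 2 ^ kap := one_le_pow₀ (by norm_num)
    linarith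
  have h11 := mul_le_mul_of_nonneg_right h9 (by linarith : 0 ≤ Real.log L)
  have hlog2 : Real.log 2 ≤ 1 := by
    have := Real.log_two_lt_d9; linarith
  linarith

theorem final_num {L : ℝ} (hL : 0 < L) (f4 : 512 * Real.log L ≤ L)
    (hlog : 1 ≤ Real.log L) : 2 * Real.pi * Real.exp (-(L / 4)) ≤ 1 / L ^ 8 := by
  have h1 : L ^ 8 = Real.exp (8 * Real.log L) := by
    rw [pow_eq_exp hL]; norm_num
  rw [le_div_iff₀ (by positivity), h1, mul_assoc, ← Real.exp_add]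
  have h2 : 2 * Real.pi ≤ Real.exp 2 := by
    have h3 : Real.pi < 3.15 := Real.pi_lt_d2
    have h4 : (2.7 : ℝ) ≤ Real.exp 1 := by
      have := Real.exp_one_gt_d9; linarith
    have h5 : Real.exp 2 = Real.exp 1 * Real.exp 1 := by rw [← Real.exp_add]; norm_num
    rw [h5]
    nlinarith
  calc 2 * Real.pi * Real.exp (-(L / 4) + 8 * Real.log L)
      ≤ Real.exp 2 * Real.exp (-(L / 4) + 8 * Real.log L) := by gcongr
    _ = Real.exp (2 + (-(L / 4) + 8 * Real.log L)) := by rw [← Real.exp_add]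
    _ ≤ 1 := by
        rw [Real.exp_le_one_iff]
        linarith

theorem bw_cond {L Lam LamP q : ℝ} {k N : ℕ} (hL : 0 < L) (hN : 1 ≤ N)
    (hq : q = 8 * ((k : ℝ) + 2) ^ (k + 1) * LamP) (hLam0 : 0 < Lam)
    (hLamge : 1 / 2 * LamP ≤ Lam) (hqN2 : 1 / q ≤ (2 * (N : ℝ)) ^ k) (hq0 : 0 < q)
    (hmain : 32 * 2 ^ k * ((k : ℝ) + 2) ^ (k + 1) * (1 + Real.log N) ^ k *
      L ^ (8 * 2 ^ k) ≤ N) :
    4 ^ (2 ^ k) * (N : ℝ) ^ (2 ^ k - k - 1) * (1 + Real.log N) ^ k * 2 / Lam ≤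
      (4 * N / L ^ 8) ^ (2 ^ k) := by
  have hNr : (1 : ℝ) ≤ N := by exact_mod_cast hN
  rw [div_pow, mul_pow, ← pow_mul, div_le_div_iff₀ hLam0 (by positivity)]
  have hexp : 2 ^ k = (2 ^ k - k - 1) + (k + 1) := by
    have : k + 1 ≤ 2 ^ k := Nat.lt_two_pow_self
    omega
  have hqN3 : 1 ≤ q * (N : ℝ) ^ k * 2 ^ k := by
    rw [div_le_iff₀ hq0, mul_pow] at hqN2
    linarith
  have h1 : (1 + Real.log N) ^ k * 2 * L ^ (8 * 2 ^ k) ≤ (N : ℝ) ^ (k + 1) * Lam := by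
    have h3 : (N : ℝ) * (1 / 2) ≤ (N : ℝ) ^ (k + 1) * Lam *
        (8 * ((k : ℝ) + 2) ^ (k + 1)) * 2 ^ k := by
      have h4 : 1 / 2 * q ≤ Lam * (8 * ((k : ℝ) + 2) ^ (k + 1)) := by
        rw [hq]
        have h5 := mul_le_mul_of_nonneg_right hLamge
          (by positivity : 0 ≤ 8 * ((k : ℝ) + 2) ^ (k + 1))
        linarith
      have h6 : (N : ℝ) * (1 / 2) * 1 ≤ (N : ℝ) * (1 / 2) * (q * (N : ℝ) ^ k * 2 ^ k) :=
        mul_le_mul_of_nonneg_left hqN3 (by positivity)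
      calc (N : ℝ) * (1 / 2) ≤ (N : ℝ) * (1 / 2) * (q * (N : ℝ) ^ k * 2 ^ k) := by linarith
        _ = (N : ℝ) ^ (k + 1) * (1 / 2 * q) * 2 ^ k := by rw [pow_succ]; ring
        _ ≤ (N : ℝ) ^ (k + 1) * (Lam * (8 * ((k : ℝ) + 2) ^ (k + 1))) * 2 ^ k := by gcongr
        _ = _ := by ring
    have h5 : (1 + Real.log N) ^ k * 2 * L ^ (8 * 2 ^ k) * (8 * ((k : ℝ) + 2) ^ (k + 1)) *
        2 ^ k ≤ (N : ℝ) * (1 / 2) := by
      have e1 : (1 + Real.log N) ^ k * 2 * L ^ (8 * 2 ^ k) * (8 * ((k : ℝ) + 2) ^ (k + 1)) *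
        2 ^ k = (32 * 2 ^ k * ((k : ℝ) + 2) ^ (k + 1) * (1 + Real.log N) ^ k *
        L ^ (8 * 2 ^ k)) * (1 / 2) := by ring
      rw [e1]
      exact mul_le_mul_of_nonneg_right hmain (by norm_num)
    have h6 : (0 : ℝ) < 2 ^ k := by positivity
    exact le_of_mul_le_mul_right (le_of_mul_le_mul_right (h5.trans h3) h6) (by positivity)
  calc 4 ^ (2 ^ k) * (N : ℝ) ^ (2 ^ k - k - 1) * (1 + Real.log N) ^ k * 2 * L ^ (8 * 2 ^ k)
      = 4 ^ (2 ^ k) * (N : ℝ) ^ (2 ^ k - k - 1) *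
        ((1 + Real.log N) ^ k * 2 * L ^ (8 * 2 ^ k)) := by ring
    _ ≤ 4 ^ (2 ^ k) * (N : ℝ) ^ (2 ^ k - k - 1) * ((N : ℝ) ^ (k + 1) * Lam) := by gcongr
    _ = 4 ^ (2 ^ k) * ((N : ℝ) ^ (2 ^ k - k - 1) * (N : ℝ) ^ (k + 1)) * Lam := by ring
    _ = _ := by rw [← pow_add, ← hexp]

theorem block2 {n P H u m d kap r : ℕ} {h : ℕ → ℝ} (hP : 2 ≤ P)
    (hu1 : P ^ u ≤ n) (hu2 : n < P ^ (u + 1)) (hm : 1 ≤ m) (hmu : m + 6 ≤ u) (hd : 1 ≤ d)
    (hk1 : u - m + 2 ≤ kap) (hk2 : r ≤ kap) (hh0 : 1 ≤ |h 0|)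
    (hh : ∀ i ∈ range (r + 1), |h i| ≤ 2)
    (H1 : 64 * (kap : ℝ) * 2 ^ kap * Real.log (Real.log P) ≤ Real.log P)
    (H1' : 1 ≤ Real.log (Real.log P))
    (H2 : 8 * ((kap : ℝ) + 2) * Real.log (16 * ((kap : ℝ) + 2) * u * d) ≤ Real.log P)
    (H3 : ((P + H : ℕ) : ℝ) ^ (u + kap) ≤ 2 * (P : ℝ) ^ (u + kap)) :
    ∃ N : ℕ, 1 ≤ N ∧ N ^ 7 ≤ P ^ 2 ∧ ∀ x0 : ℝ, (P : ℝ) ≤ x0 → x0 ≤ (P + H : ℕ) → ∀ M ≤ N,
      ‖∑ t ∈ range M, e (phase n r m h (x0 + d * t))‖ ≤ 5 * N / Real.log P ^ 8 := by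
  obtain ⟨b, hb⟩ : ∃ b, u = m + b := ⟨u - m, by omega⟩
  have hb6 : 6 ≤ b := by omega
  have hbk : b + 2 ≤ kap := by omega
  obtain ⟨k, hk⟩ : ∃ k, k = b + 1 := ⟨_, rfl⟩
  have hk7 : 7 ≤ k := by omega
  have hk8 : 8 ≤ kap := by omega
  obtain ⟨L, hL⟩ : ∃ L, L = Real.log P := ⟨_, rfl⟩
  rw [← hL] at H1 H1' H2 ⊢
  have hPr : (2 : ℝ) ≤ P := by exact_mod_cast hP
  have hP0 : (0 : ℝ) < P := by linarith
  have hLpos : 0 < L := by rw [hL]; exact Real.log_pos (by linarith)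
  obtain ⟨f1, f2, f3, f4, f5⟩ := L_facts hk8 hLpos H1' H1
  have hexpL : Real.exp L = P := by rw [hL]; exact Real.exp_log hP0
  have hkr : (8 : ℝ) ≤ kap := by exact_mod_cast hk8
  have hmr : (1 : ℝ) ≤ m := by exact_mod_cast hm
  have hdr : (1 : ℝ) ≤ d := by exact_mod_cast hd
  have hmd : (1 : ℝ) ≤ m * d := one_le_mul_of_one_le_of_one_le hmr hdr
  have hur : (m : ℝ) ≤ u := by exact_mod_cast (by omega : m ≤ u)
  obtain ⟨G, hG⟩ : ∃ G, G = 16 * ((kap : ℝ) + 2) * u * d := ⟨_, rfl⟩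
  rw [← hG] at H2
  have hu0 : (0 : ℝ) < u := by linarith
  have hGpos : 0 < G := by rw [hG]; positivity
  have hGbig : 16 * ((kap : ℝ) + 2) * (m * d) ≤ G := by
    rw [hG]
    have : 16 * ((kap : ℝ) + 2) * (m * d) = 16 * ((kap : ℝ) + 2) * m * d := by ring
    rw [this]
    gcongr
  have hG1 : 1 ≤ G := by
    refine le_trans ?_ hGbig
    exact one_le_mul_of_one_le_of_one_le (by linarith) hmd
  have hGpow : ∀ j : ℕ, j ≤ kap + 2 → G ^ j ≤ Real.exp (L / 8) := by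
    intro j hj
    refine (pow_le_pow_right₀ hG1 hj).trans ?_
    rw [pow_eq_exp hGpos]
    refine Real.exp_le_exp.2 ?_
    push_cast
    linarith
  -- n
  have hn1 : (P : ℝ) ^ u ≤ n := by exact_mod_cast hu1
  have hn2 : (n : ℝ) ≤ (P : ℝ) ^ (u + 1) := by exact_mod_cast hu2.le
  have hn0 : (0 : ℝ) < n := lt_of_lt_of_le (by positivity) hn1
  obtain ⟨LamP, hLamP⟩ : ∃ LamP, LamP = (n : ℝ) / (P : ℝ) ^ m * (m * d / P) ^ (k + 1) :=
    ⟨_, rfl⟩
  have hLamP0 : 0 < LamP := by rw [hLamP]; positivity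
  have hLamP_up : LamP ≤ (m * d : ℝ) ^ (k + 1) / P := by
    have h1 : (n : ℝ) / (P : ℝ) ^ m ≤ (P : ℝ) ^ (b + 1) := by
      rw [div_le_iff₀ (by positivity), ← pow_add]
      refine hn2.trans (le_of_eq ?_)
      congr 1
      omega
    rw [hLamP, div_pow]
    calc (n : ℝ) / (P : ℝ) ^ m * ((m * d : ℝ) ^ (k + 1) / (P : ℝ) ^ (k + 1))
        ≤ (P : ℝ) ^ (b + 1) * ((m * d : ℝ) ^ (k + 1) / (P : ℝ) ^ (k + 1)) := by gcongr
      _ = _ := by
          rw [hk, pow_succ (P : ℝ) (b + 1)]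
          field_simp
  have hLamP_low : 1 / (P : ℝ) ^ 2 ≤ LamP := by
    have h1 : (P : ℝ) ^ b ≤ (n : ℝ) / (P : ℝ) ^ m := by
      rw [le_div_iff₀ (by positivity), ← pow_add]
      refine le_trans (le_of_eq ?_) hn1
      congr 1
      omega
    rw [hLamP, div_pow]
    have h2 : (1 : ℝ) ≤ (m * d : ℝ) ^ (k + 1) := one_le_pow₀ hmd
    calc 1 / (P : ℝ) ^ 2 = (P : ℝ) ^ b * (1 / (P : ℝ) ^ (k + 1)) := by
          rw [hk, show b + 1 + 1 = b + 2 by ring, pow_add (P : ℝ) b 2]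
          field_simp
      _ ≤ _ := by gcongr
  obtain ⟨q, hq⟩ : ∃ q, q = 8 * ((k : ℝ) + 2) ^ (k + 1) * LamP := ⟨_, rfl⟩
  have hq0 : 0 < q := by rw [hq]; positivity
  have hkk0 : (0 : ℝ) ≤ k := Nat.cast_nonneg k
  have hk2pow : (1 : ℝ) ≤ ((k : ℝ) + 2) ^ (k + 1) := one_le_pow₀ (by linarith)
  have hkk : (k : ℝ) + 2 ≤ kap + 1 := by exact_mod_cast (by omega : k + 2 ≤ kap + 1)
  have h8q : 8 * LamP ≤ q := by
    rw [hq]
    calc 8 * LamP = 8 * 1 * LamP := by ring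
      _ ≤ 8 * ((k : ℝ) + 2) ^ (k + 1) * LamP := by gcongr
  have hq_low : 1 / (P : ℝ) ^ 2 ≤ q := by linarith
  have hq_up : q ≤ Real.exp (-(L / 2)) := by
    have h1 : 8 * ((k : ℝ) + 2) ^ (k + 1) * (m * d : ℝ) ^ (k + 1) ≤ G ^ (k + 1) := by
      rw [mul_assoc, ← mul_pow]
      have h2 : 8 * (((k : ℝ) + 2) * (m * d)) ≤ G := by
        refine le_trans ?_ hGbig
        rw [← mul_assoc]
        exact mul_le_mul_of_nonneg_right (by linarith) (by positivity)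
      have h3 : (8 : ℝ) ≤ 8 ^ (k + 1) := le_self_pow₀ (by norm_num) (by omega)
      calc 8 * (((k : ℝ) + 2) * (m * d)) ^ (k + 1)
          ≤ 8 ^ (k + 1) * (((k : ℝ) + 2) * (m * d)) ^ (k + 1) := by gcongr
        _ = (8 * (((k : ℝ) + 2) * (m * d))) ^ (k + 1) := (mul_pow _ _ _).symm
        _ ≤ G ^ (k + 1) := pow_le_pow_left₀ (by positivity) h2 _
    have h4 := h1.trans (hGpow (k + 1) (by omega))
    calc q ≤ 8 * ((k : ℝ) + 2) ^ (k + 1) * ((m * d : ℝ) ^ (k + 1) / P) := by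
          rw [hq]; gcongr
      _ = 8 * ((k : ℝ) + 2) ^ (k + 1) * (m * d : ℝ) ^ (k + 1) / P := by ring
      _ ≤ Real.exp (L / 8) / P := by gcongr
      _ = Real.exp (L / 8 - L) := by rw [Real.exp_sub, hexpL]
      _ ≤ _ := Real.exp_le_exp.2 (by linarith)
  -- choice of `N`
  have hq1 : q ≤ 1 := by
    refine hq_up.trans ?_
    rw [Real.exp_le_one_iff]
    linarith
  obtain ⟨N, hN1, hqN, hqN2⟩ := exists_N hq0 (by omega : 1 ≤ k) hq1
  have hNr : (1 : ℝ) ≤ N := by exact_mod_cast hN1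
  have hN7 : N ^ 7 ≤ P ^ 2 := by
    have h1 : (N : ℝ) ^ 7 ≤ (P : ℝ) ^ 2 := by
      calc (N : ℝ) ^ 7 ≤ (N : ℝ) ^ k := pow_le_pow_right₀ hNr hk7
        _ ≤ 1 / q := by rw [le_div_iff₀ hq0]; linarith
        _ ≤ (P : ℝ) ^ 2 := by
            rw [div_le_iff₀ hq0]
            rw [div_le_iff₀ (by positivity)] at hq_low
            linarith
    exact_mod_cast h1
  have hlogN : Real.log N ≤ 2 / 7 * L := by
    have h1 : (N : ℝ) ^ 7 ≤ (P : ℝ) ^ 2 := by exact_mod_cast hN7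
    have h2 := Real.log_le_log (by positivity) h1
    rw [Real.log_pow, Real.log_pow, ← hL] at h2
    push_cast at h2
    linarith
  have hlogN2 : L / (2 * k) - Real.log 2 ≤ Real.log N := by
    have h1 : Real.exp (L / 2) ≤ (2 * (N : ℝ)) ^ k := by
      refine le_trans ?_ hqN2
      rw [le_div_iff₀ hq0]
      calc Real.exp (L / 2) * q ≤ Real.exp (L / 2) * Real.exp (-(L / 2)) := by gcongr
        _ = 1 := by rw [← Real.exp_add]; simp
    have h3 := Real.log_le_log (Real.exp_pos _) h1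
    rw [Real.log_exp, Real.log_pow, Real.log_mul (by norm_num) (by positivity)] at h3
    have hkpos : (0 : ℝ) < k := by
      have : 0 < k := by omega
      exact_mod_cast this
    have h4 : L / (2 * k) = L / 2 / k := by rw [div_div]
    rw [h4]
    have h5 : L / 2 / k ≤ Real.log 2 + Real.log N := by
      rw [div_le_iff₀ hkpos]
      linarith
    linarith
  have hmain := main_cond hk8 (by omega : 1 ≤ k) (by omega : k + 1 ≤ kap) hLpos H1' H1 hN1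
    hlogN hlogN2
  refine ⟨N, hN1, hN7, ?_⟩
  intro x0 hx0 hx0' M hM
  have hx00 : 0 < x0 := by linarith
  obtain ⟨Lam, hLam⟩ : ∃ Lam, Lam = (n : ℝ) / x0 ^ m * (m * d / x0) ^ (k + 1) := ⟨_, rfl⟩
  have hLam_eq : Lam = (n : ℝ) * (m * d) ^ (k + 1) / x0 ^ (m + (k + 1)) := by
    rw [hLam, div_pow, pow_add x0 m (k + 1)]
    field_simp
  have hLamP_eq : LamP = (n : ℝ) * (m * d) ^ (k + 1) / (P : ℝ) ^ (m + (k + 1)) := by
    rw [hLamP, div_pow, pow_add (P : ℝ) m (k + 1)]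
    field_simp
  have hLamle : Lam ≤ LamP := by
    rw [hLam_eq, hLamP_eq]
    gcongr
  have hLam0 : 0 < Lam := by rw [hLam]; positivity
  have hLamge : 1 / 2 * LamP ≤ Lam := by
    rw [hLam_eq, hLamP_eq]
    have h1 : x0 ^ (m + (k + 1)) ≤ 2 * (P : ℝ) ^ (m + (k + 1)) := by
      have h2 : x0 ^ (m + (k + 1)) * (P : ℝ) ^ (u + kap - (m + (k + 1))) ≤
          2 * (P : ℝ) ^ (m + (k + 1)) * (P : ℝ) ^ (u + kap - (m + (k + 1))) := by
        calc x0 ^ (m + (k + 1)) * (P : ℝ) ^ (u + kap - (m + (k + 1)))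
            ≤ x0 ^ (m + (k + 1)) * x0 ^ (u + kap - (m + (k + 1))) := by gcongr
          _ = x0 ^ (u + kap) := by rw [← pow_add]; congr 1; omega
          _ ≤ ((P + H : ℕ) : ℝ) ^ (u + kap) := pow_le_pow_left₀ hx00.le hx0' _
          _ ≤ 2 * (P : ℝ) ^ (u + kap) := H3
          _ = _ := by rw [mul_assoc, ← pow_add]; congr 2; omega
      exact le_of_mul_le_mul_right h2 (by positivity)
    rw [mul_div_assoc', div_le_div_iff₀ (by positivity) (by positivity)]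
    have h3 := mul_le_mul_of_nonneg_left h1
      (by positivity : 0 ≤ 1 / 2 * ((n : ℝ) * (m * d) ^ (k + 1)))
    refine h3.trans (le_of_eq ?_)
    ring
  have hqLam : LamP * (N : ℝ) ^ k ≤ 1 / 8 := by
    have h3 : 8 * LamP * (N : ℝ) ^ k ≤ q * (N : ℝ) ^ k :=
      mul_le_mul_of_nonneg_right h8q (by positivity)
    linarith
  have hsmall : 2 * 2 * ((k : ℝ) + 2) ^ (k + 1) * Lam * (N : ℝ) ^ k ≤ 1 / 2 := by
    calc 2 * 2 * ((k : ℝ) + 2) ^ (k + 1) * Lam * (N : ℝ) ^ k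
        ≤ 2 * 2 * ((k : ℝ) + 2) ^ (k + 1) * LamP * (N : ℝ) ^ k := by gcongr
      _ = 1 / 2 * (q * (N : ℝ) ^ k) := by rw [hq]; ring
      _ ≤ _ := by linarith
  have hr2 : (r : ℝ) + k + 3 ≤ 2 * (kap + 2) := by
    have : (r : ℝ) ≤ kap := by exact_mod_cast hk2
    linarith
  have hr0 : (0 : ℝ) ≤ r := Nat.cast_nonneg r
  have hbig : 4 * ((r : ℝ) + k + 3) ^ (k + 2) * (m * d) ≤ Real.exp (L / 8) := by
    refine le_trans ?_ (hGpow (k + 2) (by omega))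
    have h3 : (4 : ℝ) ≤ 4 ^ (k + 2) := le_self_pow₀ (by norm_num) (by omega)
    calc 4 * ((r : ℝ) + k + 3) ^ (k + 2) * (m * d)
        ≤ 4 ^ (k + 2) * ((r : ℝ) + k + 3) ^ (k + 2) * (m * d) ^ (k + 2) := by
          have : (m * d : ℝ) ≤ (m * d) ^ (k + 2) := le_self_pow₀ hmd (by omega)
          gcongr
      _ = (4 * ((r : ℝ) + k + 3) * (m * d)) ^ (k + 2) := by
          rw [mul_pow (4 * ((r : ℝ) + k + 3)) (m * d), mul_pow 4 ((r : ℝ) + k + 3)]
      _ ≤ G ^ (k + 2) := by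
          refine pow_le_pow_left₀ (by positivity) ?_ _
          refine le_trans ?_ hGbig
          have : 4 * ((r : ℝ) + k + 3) ≤ 16 * (kap + 2) := by linarith
          gcongr
  have hdom : 2 * 2 * ((r : ℝ) + k + 3) ^ (k + 2) ≤ x0 := by
    have h1 : 2 * 2 * ((r : ℝ) + k + 3) ^ (k + 2) ≤
        4 * ((r : ℝ) + k + 3) ^ (k + 2) * (m * d) := by
      calc 2 * 2 * ((r : ℝ) + k + 3) ^ (k + 2) = 4 * ((r : ℝ) + k + 3) ^ (k + 2) * 1 := by ring
        _ ≤ _ := by gcongr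
    refine h1.trans (hbig.trans (le_trans ?_ hx0))
    rw [← hexpL]
    exact Real.exp_le_exp.2 (by linarith)
  have hBw := bw_cond hLpos hN1 hq hLam0 hLamge hqN2 hq0 hmain
  have heta : 2 * 2 * ((r : ℝ) + k + 3) ^ (k + 2) * Lam * (m * d / x0) * (N : ℝ) ^ (k + 2) ≤
      Real.exp (-(L / 4)) := by
    have h1 : (N : ℝ) ^ 2 ≤ Real.exp (4 / 7 * L) := by
      rw [pow_eq_exp (by linarith)]
      refine Real.exp_le_exp.2 ?_
      push_cast
      linarith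
    calc 2 * 2 * ((r : ℝ) + k + 3) ^ (k + 2) * Lam * (m * d / x0) * (N : ℝ) ^ (k + 2)
        ≤ 2 * 2 * ((r : ℝ) + k + 3) ^ (k + 2) * LamP * (m * d / P) * (N : ℝ) ^ (k + 2) := by
          gcongr
      _ = (4 * ((r : ℝ) + k + 3) ^ (k + 2) * (m * d)) * (LamP * (N : ℝ) ^ k) *
          (N : ℝ) ^ 2 / P := by
          rw [pow_add (N : ℝ) k 2]
          ring
      _ ≤ Real.exp (L / 8) * (1 / 8) * Real.exp (4 / 7 * L) / P := by gcongr
      _ ≤ Real.exp (L / 8) * 1 * Real.exp (4 / 7 * L) / Real.exp L := by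
          rw [hexpL]
          have h18 : (1 / 8 : ℝ) ≤ 1 := by norm_num
          gcongr
      _ = Real.exp (L / 8 + 4 / 7 * L - L) := by rw [Real.exp_sub, Real.exp_add, mul_one]
      _ ≤ _ := Real.exp_le_exp.2 (by linarith)
  have hx01 : 1 ≤ x0 := by linarith
  have hres := block (n := n) (x0 := x0) (d := d) (T := 2) (r := r) (m := m) (K := k) (N := N)
    (h := h) hn0 hx01 (by linarith) hm hN1 hh0 hh hdom hLam hsmall (B := 4 * N / L ^ 8)
    (by positivity) hBw heta hM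
  refine hres.trans ?_
  have hfin2 : 2 * Real.pi * Real.exp (-(L / 4)) * N ≤ 1 / L ^ 8 * N :=
    mul_le_mul_of_nonneg_right (final_num hLpos f4 H1') (by positivity)
  calc 4 * N / L ^ 8 + 2 * Real.pi * Real.exp (-(L / 4)) * N
      ≤ 4 * N / L ^ 8 + 1 / L ^ 8 * N := by linarith
    _ = _ := by ring

end Pool.Agent.ExpSum
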