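import Mathlib

/-!
Selberg's sum `S(D) = ∑_{l ≤ D squarefree} 1/φ(l) ≥ log (D + 1)`.
-/

namespace Pool.Agent.ExpSum

open Finset Nat

/-- squarefree numbers in `[1, D]` -/
def sqf (D : ℕ) : Finset ℕ := (Icc 1 D).filter Squarefree

theorem mem_sqf {D l : ℕ} : l ∈ sqf D ↔ (1 ≤ l ∧ l ≤ D) ∧ Squarefree l := by
  simp [sqf]

/-- `S(D)`. -/
noncomputable def selS (D : ℕ) : ℝ := ∑ l ∈ sqf D, 1 / (φ l : ℝ)

theorem inv_totient (l : ℕ) :
    1 / (φ l : ℝ) = 1 / (l : ℝ) * ∏ p ∈ l.primeFactors, (1 - (p : ℝ)⁻¹)⁻¹ := by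
  have h := Nat.totient_eq_mul_prod_factors l
  have h2 : (φ l : ℝ) = (l : ℝ) * ∏ p ∈ l.primeFactors, (1 - (p : ℝ)⁻¹) := by
    have := congrArg (fun q : ℚ => (q : ℝ)) h
    push_cast at this
    exact this
  rw [h2, Finset.prod_inv_distrib, one_div, mul_inv, one_div]

theorem sum_inv_rad_le (D l : ℕ) (hl : Squarefree l) :
    ∑ n ∈ (Icc 1 D).filter (fun n => ∏ p ∈ n.primeFactors, p = l), 1 / (n : ℝ) ≤
      1 / (φ l : ℝ) := by
  let f : ℕ →* ℝ :=
    { toFun := fun n => (n : ℝ)⁻¹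
      map_one' := by simp
      map_mul' := fun a b => by simp [mul_comm] }
  have hf : ∀ {p : ℕ}, p.Prime → ‖f p‖ < 1 := by
    intro p hp
    change ‖((p : ℝ)⁻¹)‖ < 1
    have h1 : (1 : ℝ) < p := by exact_mod_cast hp.one_lt
    rw [norm_inv, Real.norm_natCast]
    exact inv_lt_one_of_one_lt₀ h1
  obtain ⟨hs1, hs2⟩ :=
    EulerProduct.summable_and_hasSum_factoredNumbers_prod_filter_prime_geometric hf l.primeFactors
  have hprod : ∏ p ∈ l.primeFactors with p.Prime, (1 - f p)⁻¹ =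
      ∏ p ∈ l.primeFactors, (1 - (p : ℝ)⁻¹)⁻¹ := by
    rw [Finset.filter_true_of_mem fun p hp => Nat.prime_of_mem_primeFactors hp]
    rfl
  rw [hprod] at hs2
  rw [inv_totient l]
  have hl0 : l ≠ 0 := hl.ne_zero
  have hlpos : (0 : ℝ) < l := by exact_mod_cast Nat.pos_of_ne_zero hl0
  set T := (Icc 1 D).filter (fun n => ∏ p ∈ n.primeFactors, p = l) with hT
  have hdvd : ∀ n ∈ T, l ∣ n := by
    intro n hn
    rw [hT, mem_filter] at hn
    rw [← hn.2]
    exact Nat.prod_primeFactors_dvd n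
  have hn0 : ∀ n ∈ T, n ≠ 0 := by
    intro n hn
    rw [hT, mem_filter, mem_Icc] at hn
    omega
  have hfac : ∀ n ∈ T, n / l ∈ factoredNumbers l.primeFactors := by
    intro n hn
    have h1 := hdvd n hn
    have h0 := hn0 n hn
    have h2 : n / l ≠ 0 := by
      intro h
      have := Nat.div_mul_cancel h1
      rw [h] at this
      omega
    refine mem_factoredNumbers_of_primeFactors_subset h2 ?_
    have h3 : (n / l).primeFactors ⊆ n.primeFactors :=
      Nat.primeFactors_mono (Nat.div_dvd_of_dvd h1) h0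
    refine h3.trans ?_
    rw [hT, mem_filter] at hn
    intro p hp
    rw [Nat.mem_primeFactors]
    refine ⟨Nat.prime_of_mem_primeFactors hp, ?_, hl0⟩
    rw [← hn.2]
    exact Finset.dvd_prod_of_mem _ hp
  have h4 : ∑ n ∈ T, 1 / (n : ℝ) = 1 / (l : ℝ) * ∑ n ∈ T, f (n / l) := by
    rw [Finset.mul_sum]
    refine Finset.sum_congr rfl fun n hn => ?_
    change 1 / (n : ℝ) = 1 / (l : ℝ) * (((n / l : ℕ) : ℝ))⁻¹
    rw [Nat.cast_div (hdvd n hn) hlpos.ne']
    field_simp
  rw [h4]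
  refine mul_le_mul_of_nonneg_left ?_ (by positivity)
  have hinj : Set.InjOn (fun n => n / l) (T : Set ℕ) := by
    intro a ha b hb hab
    have h1 := Nat.div_mul_cancel (hdvd a ha)
    have h2 := Nat.div_mul_cancel (hdvd b hb)
    simp only at hab
    rw [← h1, ← h2, hab]
  have h5 : ∑ n ∈ T, f (n / l) = ∑ m ∈ T.image (fun n => n / l), f m := by
    rw [Finset.sum_image hinj]
  rw [h5]
  have h6 : ∀ m ∈ T.image (fun n => n / l), m ∈ factoredNumbers l.primeFactors := by
    intro m hm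
    obtain ⟨n, hn, rfl⟩ := Finset.mem_image.1 hm
    exact hfac n hn
  have h7 : ∑ m ∈ T.image (fun n => n / l), f m =
      ∑ m ∈ (T.image (fun n => n / l)).subtype (· ∈ factoredNumbers l.primeFactors), f m := by
    rw [Finset.sum_subtype_eq_sum_filter (f := fun m : ℕ => f m)]
    rw [Finset.filter_true_of_mem h6]
  rw [h7]
  refine sum_le_hasSum _ (fun m _ => ?_) hs2
  change (0 : ℝ) ≤ ((m : ℕ) : ℝ)⁻¹
  positivity

theorem log_le_selS (D : ℕ) : Real.log (D + 1) ≤ selS D := by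
  have h1 : Real.log (D + 1) ≤ ∑ n ∈ Icc 1 D, 1 / (n : ℝ) := by
    have h := log_add_one_le_harmonic D
    rw [harmonic_eq_sum_Icc] at h
    push_cast at h
    simpa [one_div] using h
  refine h1.trans ?_
  have h2 : ∑ n ∈ Icc 1 D, 1 / (n : ℝ) = ∑ l ∈ sqf D,
      ∑ n ∈ (Icc 1 D).filter (fun n => ∏ p ∈ n.primeFactors, p = l), 1 / (n : ℝ) := by
    rw [Finset.sum_fiberwise_of_maps_to]
    intro n hn
    rw [mem_Icc] at hn
    rw [mem_sqf]
    have hd : ∏ p ∈ n.primeFactors, p ∣ n := Nat.prod_primeFactors_dvd n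
    refine ⟨⟨?_, (Nat.le_of_dvd (by omega) hd).trans hn.2⟩, ?_⟩
    · exact Nat.pos_of_ne_zero (ne_zero_of_dvd_ne_zero (by omega) hd)
    · rw [Nat.squarefree_iff_prime_squarefree]
      intro p hp h
      have h3 : (∏ p ∈ n.primeFactors, p).factorization p ≤ 1 := by
        rw [Nat.factorization_prod (fun q hq => (Nat.prime_of_mem_primeFactors hq).ne_zero)]
        rw [Finsupp.finsetSum_apply]
        calc ∑ q ∈ n.primeFactors, q.factorization p
            ≤ ∑ q ∈ n.primeFactors, (if q = p then 1 else 0) := by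
              refine Finset.sum_le_sum fun q hq => ?_
              rw [(Nat.prime_of_mem_primeFactors hq).factorization, Finsupp.single_apply]
          _ ≤ 1 := by
              rw [Finset.sum_ite_eq']
              split_ifs <;> omega
      have h0 : (∏ p ∈ n.primeFactors, p) ≠ 0 := ne_zero_of_dvd_ne_zero (by omega) hd
      have h4 : 2 ≤ (∏ p ∈ n.primeFactors, p).factorization p := by
        rw [← Nat.Prime.pow_dvd_iff_le_factorization hp h0, pow_two]
        exact h
      omega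
  rw [h2]
  exact Finset.sum_le_sum fun l hl => sum_inv_rad_le D l (mem_sqf.1 hl).2

end Pool.Agent.ExpSum
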