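import Mathlib
import Pool.Agent.ExpSum.SelS

/-!
The Selberg upper bound sieve (weights `λ_d` and the resulting inequality).
-/

namespace Pool.Agent.ExpSum

open Finset Nat

/-- `y_l = μ(l) / (φ(l) S(D))`. -/
noncomputable def selY (D l : ℕ) : ℝ := (ArithmeticFunction.moebius l : ℝ) / (φ l * selS D)

/-- Selberg weights. -/
noncomputable def lam (D d : ℕ) : ℝ :=
  d * ∑ l ∈ (sqf D).filter (d ∣ ·), (ArithmeticFunction.moebius (l / d) : ℝ) * selY D l

theorem selS_pos {D : ℕ} (hD : 1 ≤ D) : 0 < selS D := by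
  refine lt_of_lt_of_le ?_ (log_le_selS D)
  refine Real.log_pos ?_
  have : (1 : ℝ) ≤ D := by exact_mod_cast hD
  linarith

theorem totient_pos_of_mem {D l : ℕ} (h : l ∈ sqf D) : (0 : ℝ) < φ l := by
  have := (mem_sqf.1 h).1.1
  exact_mod_cast Nat.totient_pos.2 (by omega)

theorem sum_moebius {c : ℕ} :
    ∑ e ∈ c.divisors, (ArithmeticFunction.moebius e : ℤ) = if c = 1 then 1 else 0 := by
  have h := congrArg (fun f : ArithmeticFunction ℤ => f c) ArithmeticFunction.coe_zeta_mul_moebius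
  simp only [ArithmeticFunction.coe_zeta_mul_apply, ArithmeticFunction.one_apply] at h
  exact h

theorem sum_moebius_between {l m : ℕ} (hl : l ≠ 0) (hlm : l ∣ m) (hm : m ≠ 0) :
    ∑ d ∈ m.divisors.filter (l ∣ ·), (ArithmeticFunction.moebius (m / d) : ℤ) =
      if l = m then 1 else 0 := by
  obtain ⟨c, rfl⟩ := hlm
  have hc : c ≠ 0 := by rintro rfl; simp at hm
  have hlpos : 0 < l := Nat.pos_of_ne_zero hl
  have e1 : ∑ d ∈ (l * c).divisors.filter (l ∣ ·),
      (ArithmeticFunction.moebius (l * c / d) : ℤ) =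
      ∑ e ∈ c.divisors, (ArithmeticFunction.moebius (c / e) : ℤ) := by
    symm
    refine Finset.sum_bij (fun e _ => l * e) ?_ ?_ ?_ ?_
    · intro e he
      rw [Nat.mem_divisors] at he
      rw [mem_filter, Nat.mem_divisors]
      exact ⟨⟨mul_dvd_mul_left l he.1, hm⟩, dvd_mul_right l e⟩
    · intro a _ b _ h
      exact Nat.eq_of_mul_eq_mul_left hlpos h
    · intro d hd
      rw [mem_filter, Nat.mem_divisors] at hd
      obtain ⟨e, rfl⟩ := hd.2
      refine ⟨e, ?_, rfl⟩
      rw [Nat.mem_divisors]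
      exact ⟨Nat.dvd_of_mul_dvd_mul_left hlpos hd.1.1, hc⟩
    · intro e _
      rw [Nat.mul_div_mul_left _ _ hlpos]
  rw [e1, Nat.sum_div_divisors c (fun e => (ArithmeticFunction.moebius e : ℤ)), sum_moebius]
  by_cases h : c = 1
  · subst h; simp
  · rw [if_neg h, if_neg]
    intro h2
    apply h
    have : l * c = l * 1 := by rw [mul_one]; exact h2.symm
    exact Nat.eq_of_mul_eq_mul_left hlpos this

/-- `∑_{l ∣ d} λ_d / d = y_l`. -/
theorem sum_lam_div {D l : ℕ} (hl : l ∈ sqf D) :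
    ∑ d ∈ (sqf D).filter (l ∣ ·), lam D d / d = selY D l := by
  have h1 : ∀ d ∈ (sqf D).filter (l ∣ ·), lam D d / d =
      ∑ m ∈ (sqf D).filter (d ∣ ·), (ArithmeticFunction.moebius (m / d) : ℝ) * selY D m := by
    intro d hd
    have : (d : ℝ) ≠ 0 := by
      have := (mem_sqf.1 (mem_filter.1 hd).1).1.1
      exact_mod_cast (by omega : d ≠ 0)
    rw [lam, mul_div_cancel_left₀ _ this]
  rw [Finset.sum_congr rfl h1]
  have h2 : ∑ d ∈ (sqf D).filter (l ∣ ·), ∑ m ∈ (sqf D).filter (d ∣ ·),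
      (ArithmeticFunction.moebius (m / d) : ℝ) * selY D m =
      ∑ m ∈ (sqf D).filter (l ∣ ·), ∑ d ∈ m.divisors.filter (l ∣ ·),
      (ArithmeticFunction.moebius (m / d) : ℝ) * selY D m := by
    refine Finset.sum_comm' ?_
    intro d m
    simp only [mem_filter, mem_sqf, Nat.mem_divisors]
    constructor
    · rintro ⟨⟨⟨⟨h1, h2⟩, h3⟩, h4⟩, ⟨⟨h5, h6⟩, h7⟩, h8⟩
      exact ⟨⟨⟨h8, by omega⟩, h4⟩, ⟨⟨h5, h6⟩, h7⟩, h4.trans h8⟩
    · rintro ⟨⟨⟨h1, h2⟩, h3⟩, ⟨⟨h5, h6⟩, h7⟩, h8⟩
      refine ⟨⟨⟨⟨?_, (Nat.le_of_dvd (by omega) h1).trans h6⟩, h7.squarefree_of_dvd h1⟩, h3⟩,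
        ⟨⟨h5, h6⟩, h7⟩, h1⟩
      exact Nat.pos_of_ne_zero (ne_zero_of_dvd_ne_zero h2 h1)
  rw [h2]
  have h3 : ∀ m ∈ (sqf D).filter (l ∣ ·), ∑ d ∈ m.divisors.filter (l ∣ ·),
      (ArithmeticFunction.moebius (m / d) : ℝ) * selY D m = if l = m then selY D m else 0 := by
    intro m hm
    rw [mem_filter, mem_sqf] at hm
    rw [← Finset.sum_mul]
    have h4 := sum_moebius_between (l := l) (m := m) (by have := (mem_sqf.1 hl).1.1; omega) hm.2
      (by omega)
    have h5 : ∑ d ∈ m.divisors.filter (l ∣ ·), (ArithmeticFunction.moebius (m / d) : ℝ) =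
        if l = m then 1 else 0 := by
      have := congrArg (fun z : ℤ => (z : ℝ)) h4
      push_cast at this
      exact this
    rw [h5]
    split_ifs <;> simp
  rw [Finset.sum_congr rfl h3, Finset.sum_ite_eq, if_pos]
  rw [mem_filter]
  exact ⟨hl, dvd_rfl⟩

theorem lam_one {D : ℕ} (hD : 1 ≤ D) : lam D 1 = 1 := by
  have hS := selS_pos hD
  rw [lam]
  have h1 : (sqf D).filter (1 ∣ ·) = sqf D := by
    refine Finset.filter_true_of_mem fun l _ => one_dvd l
  rw [h1, Nat.cast_one, one_mul]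
  have h2 : ∀ l ∈ sqf D, (ArithmeticFunction.moebius (l / 1) : ℝ) * selY D l =
      1 / (φ l : ℝ) / selS D := by
    intro l hl
    have h3 := ArithmeticFunction.moebius_sq_eq_one_of_squarefree (mem_sqf.1 hl).2
    have h4 : (ArithmeticFunction.moebius l : ℝ) * (ArithmeticFunction.moebius l : ℝ) = 1 := by
      have := congrArg (fun z : ℤ => (z : ℝ)) h3
      push_cast at this
      rw [pow_two] at this
      exact this
    rw [Nat.div_one, selY]
    have h5 := totient_pos_of_mem hl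
    field_simp
    nlinarith [h4]
  rw [Finset.sum_congr rfl h2, ← Finset.sum_div]
  exact div_self hS.ne'

/-- The quadratic form of the Selberg weights equals `1 / S(D)`. -/
theorem sum_lam_lcm {D : ℕ} (hD : 1 ≤ D) :
    ∑ d ∈ sqf D, ∑ e ∈ sqf D, lam D d * lam D e / (Nat.lcm d e : ℝ) = 1 / selS D := by
  have hS := selS_pos hD
  have hpos : ∀ d ∈ sqf D, (0 : ℝ) < d := fun d hd => by
    have := (mem_sqf.1 hd).1.1
    exact_mod_cast this
  have h1 : ∀ d ∈ sqf D, ∀ e ∈ sqf D, lam D d * lam D e / (Nat.lcm d e : ℝ) =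
      ∑ l ∈ sqf D, (φ l : ℝ) * ((if l ∣ d then lam D d / d else 0) *
        (if l ∣ e then lam D e / e else 0)) := by
    intro d hd e he
    have hd0 := hpos d hd
    have he0 := hpos e he
    have hg : (Nat.gcd d e : ℝ) * (Nat.lcm d e : ℝ) = d * e := by
      exact_mod_cast Nat.gcd_mul_lcm d e
    have hg0 : (0 : ℝ) < Nat.gcd d e := by
      have : 0 < Nat.gcd d e := Nat.gcd_pos_of_pos_left _ (by exact_mod_cast hd0)
      exact_mod_cast this
    have hl0 : (0 : ℝ) < Nat.lcm d e := by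
      have : 0 < Nat.lcm d e := Nat.lcm_pos (by exact_mod_cast hd0) (by exact_mod_cast he0)
      exact_mod_cast this
    have h2 : (Nat.gcd d e : ℝ) = ∑ l ∈ sqf D, if l ∣ d ∧ l ∣ e then (φ l : ℝ) else 0 := by
      rw [← Finset.sum_filter]
      have h3 := Nat.sum_totient (Nat.gcd d e)
      have h4 : (Nat.gcd d e).divisors = (sqf D).filter (fun l => l ∣ d ∧ l ∣ e) := by
        ext l
        rw [Nat.mem_divisors, mem_filter, mem_sqf, Nat.dvd_gcd_iff]
        constructor
        · rintro ⟨⟨ha, hb⟩, hc⟩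
          refine ⟨⟨⟨?_, ?_⟩, ?_⟩, ha, hb⟩
          · exact Nat.pos_of_ne_zero (ne_zero_of_dvd_ne_zero
              (by have := (mem_sqf.1 hd).1.1; omega) ha)
          · exact (Nat.le_of_dvd (by exact_mod_cast hd0) ha).trans (mem_sqf.1 hd).1.2
          · exact (mem_sqf.1 hd).2.squarefree_of_dvd ha
        · rintro ⟨_, ha, hb⟩
          refine ⟨⟨ha, hb⟩, ?_⟩
          exact_mod_cast hg0.ne'
      rw [← h4]
      exact_mod_cast h3.symm
    have h5 : lam D d * lam D e / (Nat.lcm d e : ℝ) =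
        (Nat.gcd d e : ℝ) * ((lam D d / d) * (lam D e / e)) := by
      field_simp
      linear_combination (-(lam D d * lam D e)) * hg
    rw [h5, h2, Finset.sum_mul]
    refine Finset.sum_congr rfl fun l _ => ?_
    by_cases ha : l ∣ d <;> by_cases hb : l ∣ e <;> simp [ha, hb]
  rw [Finset.sum_congr rfl fun d hd => Finset.sum_congr rfl fun e he => h1 d hd e he]
  have h6 : ∑ d ∈ sqf D, ∑ e ∈ sqf D, ∑ l ∈ sqf D, (φ l : ℝ) *
      ((if l ∣ d then lam D d / d else 0) * (if l ∣ e then lam D e / e else 0)) =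
      ∑ l ∈ sqf D, (φ l : ℝ) * (selY D l * selY D l) := by
    calc _ = ∑ d ∈ sqf D, ∑ l ∈ sqf D, ∑ e ∈ sqf D, (φ l : ℝ) *
          ((if l ∣ d then lam D d / d else 0) * (if l ∣ e then lam D e / e else 0)) := by
          refine Finset.sum_congr rfl fun d _ => Finset.sum_comm
      _ = ∑ l ∈ sqf D, ∑ d ∈ sqf D, ∑ e ∈ sqf D, (φ l : ℝ) *
          ((if l ∣ d then lam D d / d else 0) * (if l ∣ e then lam D e / e else 0)) :=
          Finset.sum_comm
      _ = _ := by
          refine Finset.sum_congr rfl fun l hl => ?_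
          rw [← sum_lam_div hl, Finset.sum_filter, Finset.sum_mul_sum, Finset.mul_sum]
          refine Finset.sum_congr rfl fun d _ => ?_
          rw [Finset.mul_sum]
  rw [h6]
  have h7 : ∀ l ∈ sqf D, (φ l : ℝ) * (selY D l * selY D l) = 1 / (φ l : ℝ) * (1 / selS D ^ 2) := by
    intro l hl
    have h3 := ArithmeticFunction.moebius_sq_eq_one_of_squarefree (mem_sqf.1 hl).2
    have h4 : (ArithmeticFunction.moebius l : ℝ) ^ 2 = 1 := by
      have := congrArg (fun z : ℤ => (z : ℝ)) h3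
      push_cast at this
      exact this
    have h5 := totient_pos_of_mem hl
    rw [selY]
    field_simp
    rw [h4]
  rw [Finset.sum_congr rfl h7, ← Finset.sum_mul]
  change selS D * _ = _
  field_simp

end Pool.Agent.ExpSum
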