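import Mathlib
import Pool.Agent.ExpSum.Selberg

/-!
`|λ_d| ≤ 1` and the Selberg sieve inequality.
-/

namespace Pool.Agent.ExpSum

open Finset Nat

/-- The arithmetic function `k ↦ 1/φ(k)`. -/
noncomputable def invPhi : ArithmeticFunction ℝ := ⟨fun k => 1 / (φ k : ℝ), by simp⟩

theorem invPhi_apply (k : ℕ) : invPhi k = 1 / (φ k : ℝ) := rfl

theorem invPhi_mult : invPhi.IsMultiplicative := by
  refine ⟨by simp [invPhi_apply], fun {m n} h => ?_⟩
  rw [invPhi_apply, invPhi_apply, invPhi_apply, Nat.totient_mul h, Nat.cast_mul]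
  rw [one_div, mul_inv, one_div, one_div]

theorem div_totient {d : ℕ} (hd : Squarefree d) :
    (d : ℝ) / φ d = ∑ k ∈ d.divisors, 1 / (φ k : ℝ) := by
  have h1 := invPhi_mult.prodPrimeFactors_one_add_of_squarefree hd
  have h2 := inv_totient d
  have hd0 : (d : ℝ) ≠ 0 := by exact_mod_cast hd.ne_zero
  rw [div_eq_mul_one_div, h2, ← mul_assoc, mul_one_div_cancel hd0, one_mul]
  have h3 : ∏ p ∈ d.primeFactors, (1 + invPhi p) =
      ∏ p ∈ d.primeFactors, (1 - (p : ℝ)⁻¹)⁻¹ := by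
    refine Finset.prod_congr rfl fun p hp => ?_
    have hp' := Nat.prime_of_mem_primeFactors hp
    have h1p : (1 : ℝ) < p := by exact_mod_cast hp'.one_lt
    rw [invPhi_apply, Nat.totient_prime hp', Nat.cast_sub hp'.one_lt.le, Nat.cast_one]
    have h4 : (p : ℝ) - 1 ≠ 0 := by linarith
    have h5 : (p : ℝ) ≠ 0 := by linarith
    have h6 : 1 - (p : ℝ)⁻¹ = (p - 1) / p := by field_simp
    rw [h6, inv_div]
    field_simp
    ring
  rw [← h3, h1]
  rfl

theorem lam_eq {D d : ℕ} (hd : d ∈ sqf D) :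
    lam D d = (ArithmeticFunction.moebius d : ℝ) * ((d : ℝ) / φ d *
      ∑ l ∈ (sqf D).filter (d ∣ ·), 1 / (φ (l / d) : ℝ)) / selS D := by
  rw [lam, Finset.mul_sum, Finset.mul_sum, Finset.mul_sum, Finset.sum_div]
  refine Finset.sum_congr rfl fun l hl => ?_
  rw [mem_filter] at hl
  obtain ⟨hl, m, rfl⟩ := hl
  have hdpos : 0 < d := (mem_sqf.1 hd).1.1
  rw [Nat.mul_div_cancel_left _ hdpos]
  have hsq := (mem_sqf.1 hl).2
  have hcop : Nat.Coprime d m := Nat.coprime_of_squarefree_mul hsq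
  have hm : Squarefree m := hsq.squarefree_of_dvd (dvd_mul_left m d)
  rw [selY, ArithmeticFunction.isMultiplicative_moebius.map_mul_of_coprime hcop,
    Nat.totient_mul hcop]
  have h4 : (ArithmeticFunction.moebius m : ℝ) ^ 2 = 1 := by
    have := congrArg (fun z : ℤ => (z : ℝ))
      (ArithmeticFunction.moebius_sq_eq_one_of_squarefree hm)
    push_cast at this
    exact this
  push_cast
  have e : (ArithmeticFunction.moebius m : ℝ) *
      ((ArithmeticFunction.moebius d : ℝ) * (ArithmeticFunction.moebius m : ℝ)) =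
      ArithmeticFunction.moebius d := by
    linear_combination (ArithmeticFunction.moebius d : ℝ) * h4
  calc (d : ℝ) * ((ArithmeticFunction.moebius m : ℝ) * ((ArithmeticFunction.moebius d : ℝ) *
        (ArithmeticFunction.moebius m : ℝ) / ((φ d : ℝ) * (φ m : ℝ) * selS D)))
      = (d : ℝ) * ((ArithmeticFunction.moebius m : ℝ) * ((ArithmeticFunction.moebius d : ℝ) *
        (ArithmeticFunction.moebius m : ℝ))) / ((φ d : ℝ) * (φ m : ℝ) * selS D) := by ring
    _ = (d : ℝ) * (ArithmeticFunction.moebius d : ℝ) /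
        ((φ d : ℝ) * (φ m : ℝ) * selS D) := by rw [e]
    _ = _ := by
      rw [div_eq_mul_inv, mul_inv, mul_inv, div_eq_mul_inv, div_eq_mul_inv, one_div]
      ring

theorem sum_le_selS {D d : ℕ} (hd : d ∈ sqf D) :
    (d : ℝ) / φ d * ∑ l ∈ (sqf D).filter (d ∣ ·), 1 / (φ (l / d) : ℝ) ≤ selS D := by
  have hd1 := mem_sqf.1 hd
  have hdpos : 0 < d := hd1.1.1
  rw [div_totient hd1.2, Finset.sum_mul_sum]
  rw [← Finset.sum_product']
  set T := d.divisors ×ˢ (sqf D).filter (d ∣ ·) with hT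
  have key : ∀ x ∈ T, x.1 ∣ d ∧ x.1 ≠ 0 ∧ (∃ m, x.2 = d * m ∧ x.2 / d = m ∧
      Nat.Coprime d m ∧ Squarefree m ∧ m ≠ 0 ∧ d * m ≤ D) := by
    intro x hx
    rw [hT, mem_product, Nat.mem_divisors, mem_filter, mem_sqf] at hx
    obtain ⟨⟨h1, h2⟩, ⟨⟨h3, h4⟩, h5⟩, m, h6⟩ := hx
    have h7 : Squarefree (d * m) := h6 ▸ h5
    refine ⟨h1, ne_zero_of_dvd_ne_zero h2 h1, m, h6, ?_, Nat.coprime_of_squarefree_mul h7,
      h7.squarefree_of_dvd (dvd_mul_left m d), ?_, h6 ▸ h4⟩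
    · rw [h6, Nat.mul_div_cancel_left _ hdpos]
    · rintro rfl
      simp at h7
  have h1 : ∀ x ∈ T, 1 / (φ x.1 : ℝ) * (1 / (φ (x.2 / d) : ℝ)) =
      1 / (φ (x.1 * (x.2 / d)) : ℝ) := by
    intro x hx
    obtain ⟨ha, _, m, _, hb, hc, _⟩ := key x hx
    rw [hb, Nat.totient_mul (Nat.Coprime.coprime_dvd_left ha hc), Nat.cast_mul]
    rw [one_div_mul_one_div]
  rw [Finset.sum_congr rfl h1]
  have hinj : Set.InjOn (fun x : ℕ × ℕ => x.1 * (x.2 / d)) (T : Set (ℕ × ℕ)) := by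
    intro x hx y hy hxy
    obtain ⟨a1, a2, m, a3, a4, a5, a6, a7, a8⟩ := key x hx
    obtain ⟨b1, b2, m', b3, b4, b5, b6, b7, b8⟩ := key y hy
    simp only [a4, b4] at hxy
    have e1 : Nat.gcd (x.1 * m) d = x.1 := by
      have : Nat.Coprime m d := a5.symm
      rw [Nat.Coprime.gcd_mul_right_cancel x.1 this]
      exact Nat.gcd_eq_left a1
    have e2 : Nat.gcd (y.1 * m') d = y.1 := by
      have : Nat.Coprime m' d := b5.symm
      rw [Nat.Coprime.gcd_mul_right_cancel y.1 this]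
      exact Nat.gcd_eq_left b1
    have e3 : x.1 = y.1 := by rw [← e1, ← e2, hxy]
    have e4 : m = m' := by
      rw [e3] at hxy
      exact Nat.eq_of_mul_eq_mul_left (Nat.pos_of_ne_zero b2) hxy
    refine Prod.ext e3 ?_
    rw [a3, b3, e4]
  have e5 := Finset.sum_image (s := T) (g := fun x : ℕ × ℕ => x.1 * (x.2 / d))
    (f := fun j : ℕ => 1 / (φ j : ℝ)) hinj
  rw [← e5]
  refine Finset.sum_le_sum_of_subset_of_nonneg ?_ fun _ _ _ => by positivity
  intro j hj
  obtain ⟨x, hx, rfl⟩ := mem_image.1 hj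
  obtain ⟨a1, a2, m, a3, a4, a5, a6, a7, a8⟩ := key x hx
  simp only [a4]
  rw [mem_sqf]
  refine ⟨⟨?_, ?_⟩, ?_⟩
  · exact Nat.pos_of_ne_zero (Nat.mul_ne_zero a2 a7)
  · exact (Nat.mul_le_mul_right m (Nat.le_of_dvd hdpos a1)).trans a8
  · rw [Nat.squarefree_mul (Nat.Coprime.coprime_dvd_left a1 a5)]
    exact ⟨hd1.2.squarefree_of_dvd a1, a6⟩

theorem abs_lam_le {D d : ℕ} (hd : d ∈ sqf D) : |lam D d| ≤ 1 := by
  have hD : 1 ≤ D := (mem_sqf.1 hd).1.1.trans (mem_sqf.1 hd).1.2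
  have hS := selS_pos hD
  rw [lam_eq hd, abs_div, abs_of_pos hS, div_le_one hS, abs_mul]
  have h1 : |(ArithmeticFunction.moebius d : ℝ)| ≤ 1 := by
    have := ArithmeticFunction.abs_moebius_le_one (n := d)
    exact_mod_cast this
  have h2 : 0 ≤ (d : ℝ) / φ d * ∑ l ∈ (sqf D).filter (d ∣ ·), 1 / (φ (l / d) : ℝ) := by
    positivity
  rw [abs_of_nonneg h2]
  calc _ ≤ 1 * ((d : ℝ) / φ d * ∑ l ∈ (sqf D).filter (d ∣ ·), 1 / (φ (l / d) : ℝ)) :=
        mul_le_mul_of_nonneg_right h1 h2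
    _ ≤ _ := by rw [one_mul]; exact sum_le_selS hd

/-- The Selberg sieve inequality for primes, with general nonnegative weights. -/
theorem selberg {D : ℕ} (hD : 1 ≤ D) (I : Finset ℕ) (W : ℕ → ℝ) (hW : ∀ x ∈ I, 0 ≤ W x)
    {X : ℝ} (hX : 0 ≤ X) (R : ℕ → ℝ)
    (hR : ∀ e, 1 ≤ e → e ≤ D * D → |∑ x ∈ I with e ∣ x, W x - X / e| ≤ R e) :
    ∑ x ∈ I with (x.Prime ∧ D < x), W x ≤
      X / Real.log (D + 1) + ∑ d ∈ Icc 1 D, ∑ e ∈ Icc 1 D, R (Nat.lcm d e) := by
  have hS := selS_pos hD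
  have hlog : 0 < Real.log (D + 1) := by
    refine Real.log_pos ?_
    have : (1 : ℝ) ≤ D := by exact_mod_cast hD
    linarith
  set g : ℕ → ℝ := fun x => ∑ d ∈ (sqf D).filter (· ∣ x), lam D d with hg
  have h1 : ∑ x ∈ I with (x.Prime ∧ D < x), W x ≤ ∑ x ∈ I, W x * g x ^ 2 := by
    calc ∑ x ∈ I with (x.Prime ∧ D < x), W x
        = ∑ x ∈ I with (x.Prime ∧ D < x), W x * g x ^ 2 := by
          refine Finset.sum_congr rfl fun x hx => ?_
          rw [mem_filter] at hx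
          have : (sqf D).filter (· ∣ x) = {1} := by
            ext d
            rw [mem_filter, mem_sqf, mem_singleton]
            constructor
            · rintro ⟨⟨⟨h1, h2⟩, h3⟩, h4⟩
              rcases (Nat.dvd_prime hx.2.1).1 h4 with h | h
              · exact h
              · omega
            · rintro rfl
              exact ⟨⟨⟨le_rfl, hD⟩, squarefree_one⟩, one_dvd x⟩
          rw [hg]
          simp only [this, Finset.sum_singleton, lam_one hD]
          ring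
      _ ≤ ∑ x ∈ I, W x * g x ^ 2 := by
          refine Finset.sum_le_sum_of_subset_of_nonneg (Finset.filter_subset _ _) ?_
          intro x hx _
          exact mul_nonneg (hW x hx) (sq_nonneg _)
  have h2 : ∑ x ∈ I, W x * g x ^ 2 = ∑ d ∈ sqf D, ∑ e ∈ sqf D,
      lam D d * lam D e * ∑ x ∈ I with Nat.lcm d e ∣ x, W x := by
    have e1 : ∀ x, W x * g x ^ 2 = ∑ d ∈ sqf D, ∑ e ∈ sqf D,
        lam D d * lam D e * (if Nat.lcm d e ∣ x then W x else 0) := by
      intro x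
      rw [pow_two, hg]
      simp only
      rw [Finset.sum_filter, Finset.sum_mul_sum, Finset.mul_sum]
      refine Finset.sum_congr rfl fun d _ => ?_
      rw [Finset.mul_sum]
      refine Finset.sum_congr rfl fun e _ => ?_
      by_cases ha : d ∣ x <;> by_cases hb : e ∣ x
      · have : Nat.lcm d e ∣ x := Nat.lcm_dvd ha hb
        simp only [ha, hb, this, if_true]
        ring
      · have : ¬ Nat.lcm d e ∣ x := fun h => hb ((Nat.dvd_lcm_right d e).trans h)
        simp [hb, this]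
      · have : ¬ Nat.lcm d e ∣ x := fun h => ha ((Nat.dvd_lcm_left d e).trans h)
        simp [ha, this]
      · have : ¬ Nat.lcm d e ∣ x := fun h => ha ((Nat.dvd_lcm_left d e).trans h)
        simp [ha, this]
    rw [Finset.sum_congr rfl fun x _ => e1 x]
    rw [Finset.sum_comm]
    refine Finset.sum_congr rfl fun d _ => ?_
    rw [Finset.sum_comm]
    refine Finset.sum_congr rfl fun e _ => ?_
    rw [← Finset.mul_sum, ← Finset.sum_filter]
  have h3 : ∑ d ∈ sqf D, ∑ e ∈ sqf D,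
      lam D d * lam D e * ∑ x ∈ I with Nat.lcm d e ∣ x, W x ≤
      X * (1 / selS D) + ∑ d ∈ sqf D, ∑ e ∈ sqf D, R (Nat.lcm d e) := by
    rw [← sum_lam_lcm hD, Finset.mul_sum, ← Finset.sum_add_distrib]
    refine Finset.sum_le_sum fun d hd => ?_
    rw [Finset.mul_sum, ← Finset.sum_add_distrib]
    refine Finset.sum_le_sum fun e he => ?_
    have hlpos : 1 ≤ Nat.lcm d e := Nat.lcm_pos (mem_sqf.1 hd).1.1 (mem_sqf.1 he).1.1
    have hll : Nat.lcm d e ≤ D * D := by
      refine (Nat.le_of_dvd ?_ (Nat.lcm_dvd_mul d e)).trans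
        (Nat.mul_le_mul (mem_sqf.1 hd).1.2 (mem_sqf.1 he).1.2)
      exact Nat.mul_pos (mem_sqf.1 hd).1.1 (mem_sqf.1 he).1.1
    have h4 := hR _ hlpos hll
    have h5 : |lam D d * lam D e| ≤ 1 := by
      rw [abs_mul]
      have a := abs_lam_le hd
      have b := abs_lam_le he
      nlinarith [abs_nonneg (lam D d), abs_nonneg (lam D e)]
    have h6 : lam D d * lam D e * (∑ x ∈ I with Nat.lcm d e ∣ x, W x - X / (Nat.lcm d e : ℝ)) ≤
        R (Nat.lcm d e) := by
      refine (le_abs_self _).trans ?_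
      rw [abs_mul]
      calc |lam D d * lam D e| * |∑ x ∈ I with Nat.lcm d e ∣ x, W x - X / (Nat.lcm d e : ℝ)|
          ≤ 1 * |∑ x ∈ I with Nat.lcm d e ∣ x, W x - X / (Nat.lcm d e : ℝ)| :=
            mul_le_mul_of_nonneg_right h5 (abs_nonneg _)
        _ ≤ _ := by rw [one_mul]; exact h4
    have h7 : lam D d * lam D e * ∑ x ∈ I with Nat.lcm d e ∣ x, W x =
        X * (lam D d * lam D e / (Nat.lcm d e : ℝ)) +
        lam D d * lam D e * (∑ x ∈ I with Nat.lcm d e ∣ x, W x - X / (Nat.lcm d e : ℝ)) := by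
      ring
    rw [h7]
    linarith
  have h8 : ∑ d ∈ sqf D, ∑ e ∈ sqf D, R (Nat.lcm d e) ≤
      ∑ d ∈ Icc 1 D, ∑ e ∈ Icc 1 D, R (Nat.lcm d e) := by
    have hsub : sqf D ⊆ Icc 1 D := Finset.filter_subset _ _
    have hRnn : ∀ d ∈ Icc 1 D, ∀ e ∈ Icc 1 D, 0 ≤ R (Nat.lcm d e) := by
      intro d hd e he
      rw [mem_Icc] at hd he
      refine (abs_nonneg _).trans (hR _ (Nat.lcm_pos hd.1 he.1) ?_)
      refine (Nat.le_of_dvd ?_ (Nat.lcm_dvd_mul d e)).trans (Nat.mul_le_mul hd.2 he.2)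
      exact Nat.mul_pos hd.1 he.1
    calc ∑ d ∈ sqf D, ∑ e ∈ sqf D, R (Nat.lcm d e)
        ≤ ∑ d ∈ sqf D, ∑ e ∈ Icc 1 D, R (Nat.lcm d e) := by
          refine Finset.sum_le_sum fun d hd => ?_
          exact Finset.sum_le_sum_of_subset_of_nonneg hsub fun e he _ => hRnn d (hsub hd) e he
      _ ≤ _ := by
          refine Finset.sum_le_sum_of_subset_of_nonneg hsub fun d hd _ => ?_
          exact Finset.sum_nonneg fun e he => hRnn d hd e he
  have h9 : X * (1 / selS D) ≤ X / Real.log (D + 1) := by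
    rw [mul_one_div]
    exact div_le_div_of_nonneg_left hX hlog (log_le_selS D)
  linarith

/-- `∑_{d, e ≤ D} 1 / lcm(d, e) ≤ (1 + log D)^3`. -/
theorem sum_inv_lcm_le (D : ℕ) :
    ∑ d ∈ Icc 1 D, ∑ e ∈ Icc 1 D, 1 / (Nat.lcm d e : ℝ) ≤ (1 + Real.log D) ^ 3 := by
  have hH : ∑ d ∈ Icc 1 D, 1 / (d : ℝ) ≤ 1 + Real.log D := by
    have h := harmonic_le_one_add_log D
    rw [harmonic_eq_sum_Icc] at h
    push_cast at h
    simpa [one_div] using h
  set Hs := ∑ d ∈ Icc 1 D, 1 / (d : ℝ) with hHs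
  have hH0 : 0 ≤ Hs := Finset.sum_nonneg fun _ _ => by positivity
  have h1 : ∀ d ∈ Icc 1 D, ∀ e ∈ Icc 1 D, 1 / (Nat.lcm d e : ℝ) ≤
      ∑ g ∈ Icc 1 D, (g : ℝ) * ((if g ∣ d then 1 / (d : ℝ) else 0) *
        (if g ∣ e then 1 / (e : ℝ) else 0)) := by
    intro d hd e he
    rw [mem_Icc] at hd he
    have hd0 : (0 : ℝ) < d := by exact_mod_cast hd.1
    have he0 : (0 : ℝ) < e := by exact_mod_cast he.1
    have hg : (Nat.gcd d e : ℝ) * (Nat.lcm d e : ℝ) = d * e := by
      exact_mod_cast Nat.gcd_mul_lcm d e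
    have hgpos : 0 < Nat.gcd d e := Nat.gcd_pos_of_pos_left _ hd.1
    have hg0 : (0 : ℝ) < Nat.gcd d e := by exact_mod_cast hgpos
    have hl0 : (0 : ℝ) < Nat.lcm d e := by exact_mod_cast Nat.lcm_pos hd.1 he.1
    have e1 : 1 / (Nat.lcm d e : ℝ) = (Nat.gcd d e : ℝ) * (1 / (d : ℝ) * (1 / (e : ℝ))) := by
      field_simp
      linarith [hg]
    rw [e1]
    have h2 := Finset.single_le_sum (s := Icc 1 D) (f := fun g : ℕ => (g : ℝ) *
      ((if g ∣ d then 1 / (d : ℝ) else 0) * (if g ∣ e then 1 / (e : ℝ) else 0)))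
      (fun g _ => by positivity) (a := Nat.gcd d e) (by
        rw [mem_Icc]
        exact ⟨hgpos, (Nat.le_of_dvd hd.1 (Nat.gcd_dvd_left d e)).trans hd.2⟩)
    simp only [Nat.gcd_dvd_left, Nat.gcd_dvd_right, if_true] at h2
    exact h2
  calc ∑ d ∈ Icc 1 D, ∑ e ∈ Icc 1 D, 1 / (Nat.lcm d e : ℝ)
      ≤ ∑ d ∈ Icc 1 D, ∑ e ∈ Icc 1 D, ∑ g ∈ Icc 1 D, (g : ℝ) *
        ((if g ∣ d then 1 / (d : ℝ) else 0) * (if g ∣ e then 1 / (e : ℝ) else 0)) :=
        Finset.sum_le_sum fun d hd => Finset.sum_le_sum fun e he => h1 d hd e he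
    _ = ∑ g ∈ Icc 1 D, (g : ℝ) * ((∑ d ∈ Icc 1 D, if g ∣ d then 1 / (d : ℝ) else 0) *
        (∑ e ∈ Icc 1 D, if g ∣ e then 1 / (e : ℝ) else 0)) := by
        calc _ = ∑ d ∈ Icc 1 D, ∑ g ∈ Icc 1 D, ∑ e ∈ Icc 1 D, (g : ℝ) *
              ((if g ∣ d then 1 / (d : ℝ) else 0) * (if g ∣ e then 1 / (e : ℝ) else 0)) :=
              Finset.sum_congr rfl fun d _ => Finset.sum_comm
          _ = ∑ g ∈ Icc 1 D, ∑ d ∈ Icc 1 D, ∑ e ∈ Icc 1 D, (g : ℝ) *
              ((if g ∣ d then 1 / (d : ℝ) else 0) * (if g ∣ e then 1 / (e : ℝ) else 0)) :=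
              Finset.sum_comm
          _ = _ := by
              refine Finset.sum_congr rfl fun g _ => ?_
              rw [Finset.sum_mul_sum, Finset.mul_sum]
              refine Finset.sum_congr rfl fun d _ => ?_
              rw [Finset.mul_sum]
    _ ≤ ∑ g ∈ Icc 1 D, (g : ℝ) * ((1 / (g : ℝ) * Hs) * (1 / (g : ℝ) * Hs)) := by
        refine Finset.sum_le_sum fun g hg => ?_
        rw [mem_Icc] at hg
        have hg0 : (0 : ℝ) < g := by exact_mod_cast hg.1
        have h3 : (∑ d ∈ Icc 1 D, if g ∣ d then 1 / (d : ℝ) else 0) ≤ 1 / (g : ℝ) * Hs := by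
          rw [← Finset.sum_filter, hHs, Finset.mul_sum]
          have hinj : Set.InjOn (fun d : ℕ => d / g) (((Icc 1 D).filter (g ∣ ·) : Finset ℕ) :
              Set ℕ) := by
            intro a ha b hb hab
            rw [mem_coe, mem_filter] at ha hb
            have h1 := Nat.div_mul_cancel ha.2
            have h2 := Nat.div_mul_cancel hb.2
            simp only at hab
            rw [← h1, ← h2, hab]
          calc ∑ d ∈ (Icc 1 D).filter (g ∣ ·), 1 / (d : ℝ)
              = ∑ d ∈ (Icc 1 D).filter (g ∣ ·), 1 / (g : ℝ) * (1 / ((d / g : ℕ) : ℝ)) := by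
                refine Finset.sum_congr rfl fun d hd => ?_
                rw [mem_filter] at hd
                rw [Nat.cast_div hd.2 hg0.ne']
                field_simp
            _ = ∑ m ∈ ((Icc 1 D).filter (g ∣ ·)).image (fun d : ℕ => d / g),
                1 / (g : ℝ) * (1 / (m : ℝ)) := by
                rw [Finset.sum_image hinj]
            _ ≤ _ := by
                refine Finset.sum_le_sum_of_subset_of_nonneg ?_ fun _ _ _ => by positivity
                intro m hm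
                obtain ⟨d, hd, rfl⟩ := mem_image.1 hm
                rw [mem_filter, mem_Icc] at hd
                rw [mem_Icc]
                exact ⟨Nat.div_pos (Nat.le_of_dvd hd.1.1 hd.2) hg.1,
                  (Nat.div_le_self _ _).trans hd.1.2⟩
        have h4 : 0 ≤ (∑ d ∈ Icc 1 D, if g ∣ d then 1 / (d : ℝ) else 0) :=
          Finset.sum_nonneg fun _ _ => by positivity
        refine mul_le_mul_of_nonneg_left ?_ hg0.le
        exact mul_le_mul h3 h3 h4 (by positivity)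
    _ = Hs ^ 3 := by
        have : ∀ g ∈ Icc 1 D, (g : ℝ) * ((1 / (g : ℝ) * Hs) * (1 / (g : ℝ) * Hs)) =
            1 / (g : ℝ) * Hs ^ 2 := by
          intro g hg
          rw [mem_Icc] at hg
          have hg0 : (0 : ℝ) < g := by exact_mod_cast hg.1
          field_simp
        rw [Finset.sum_congr rfl this, ← Finset.sum_mul, ← hHs]
        ring
    _ ≤ _ := pow_le_pow_left₀ hH0 hH 3

end Pool.Agent.ExpSum
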