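import Mathlib
import Pool.Agent.ExpSum.Block2
import Pool.Agent.ExpSum.Sieve

/-!
The trigonometric majorant and the count of primes in short intervals with small top digits.
-/

namespace Pool.Agent.ExpSum

open Finset Nat

/-- A nonnegative trigonometric polynomial, at least `1` on `[0, 1/2]`, with mean `3/4`. -/
noncomputable def F (t : ℝ) : ℝ :=
  3 / 4 + 1 / 2 * Real.sin (2 * Real.pi * t) + 1 / 4 * Real.cos (2 * Real.pi * (2 * t))

theorem F_eq (t : ℝ) : F t = 1 / 2 * (2 - Real.sin (2 * Real.pi * t)) *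
    (1 + Real.sin (2 * Real.pi * t)) := by
  rw [F, show 2 * Real.pi * (2 * t) = 2 * (2 * Real.pi * t) by ring, Real.cos_two_mul']
  have := Real.sin_sq_add_cos_sq (2 * Real.pi * t)
  have h2 : Real.cos (2 * Real.pi * t) ^ 2 = 1 - Real.sin (2 * Real.pi * t) ^ 2 := by linarith
  rw [h2]
  ring

theorem F_nonneg (t : ℝ) : 0 ≤ F t := by
  rw [F_eq]
  have h1 := Real.neg_one_le_sin (2 * Real.pi * t)
  have h2 := Real.sin_le_one (2 * Real.pi * t)
  have h3 : 0 ≤ 1 / 2 * (2 - Real.sin (2 * Real.pi * t)) := by linarith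
  exact mul_nonneg h3 (by linarith)

theorem one_le_F {t : ℝ} (ht : 0 ≤ Real.sin (2 * Real.pi * t)) : 1 ≤ F t := by
  rw [F_eq]
  have h2 := Real.sin_le_one (2 * Real.pi * t)
  nlinarith

/-- Fourier coefficients of `F`. -/
noncomputable def aF (h : ℤ) : ℂ :=
  if h = 0 then 3 / 4 else if h = 1 then -Complex.I / 4 else if h = -1 then Complex.I / 4 else 1 / 8

theorem F_fourier (t : ℝ) : (F t : ℂ) = ∑ h ∈ Icc (-2 : ℤ) 2, aF h * e ((h : ℝ) * t) := by
  have hI : Icc (-2 : ℤ) 2 = {-2, -1, 0, 1, 2} := by decide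
  rw [hI]
  simp only [aF]
  rw [Finset.sum_insert (by decide), Finset.sum_insert (by decide), Finset.sum_insert (by decide),
    Finset.sum_insert (by decide), Finset.sum_singleton]
  norm_num
  have he : ∀ s : ℝ, e s = (Real.cos (2 * Real.pi * s) : ℂ) +
      (Real.sin (2 * Real.pi * s) : ℂ) * Complex.I := by
    intro s
    rw [e, mul_comm, Complex.exp_mul_I, Complex.ofReal_cos, Complex.ofReal_sin]
  rw [he, he, he, he, he, F]
  rw [show 2 * Real.pi * (-(2 * t)) = -(2 * Real.pi * (2 * t)) by ring,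
    show 2 * Real.pi * (-t) = -(2 * Real.pi * t) by ring, Real.cos_neg, Real.cos_neg,
    Real.sin_neg, Real.sin_neg]
  push_cast
  simp only [mul_zero, Complex.cos_zero, Complex.sin_zero, zero_mul, add_zero]
  ring_nf
  rw [Complex.I_sq]
  ring

theorem sum_norm_aF : ∑ h ∈ Icc (-2 : ℤ) 2, ‖aF h‖ = 3 / 2 := by
  have hI : Icc (-2 : ℤ) 2 = {-2, -1, 0, 1, 2} := by decide
  rw [hI]
  simp only [aF]
  rw [Finset.sum_insert (by decide), Finset.sum_insert (by decide), Finset.sum_insert (by decide),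
    Finset.sum_insert (by decide), Finset.sum_singleton]
  norm_num

theorem freq {n P H u r m0 kap d : ℕ} (hP : 2 ≤ P)
    (hu1 : P ^ u ≤ n) (hu2 : n < P ^ (u + 1)) (hm0 : 1 ≤ m0) (hm : m0 + (r + 5) = u)
    (hd : 1 ≤ d) (hkap : kap = r + 7)
    (H1 : 64 * (kap : ℝ) * 2 ^ kap * Real.log (Real.log P) ≤ Real.log P)
    (H1' : 1 ≤ Real.log (Real.log P))
    (H2 : 8 * ((kap : ℝ) + 2) * Real.log (16 * ((kap : ℝ) + 2) * u * d) ≤ Real.log P)
    (H3 : ((P + H : ℕ) : ℝ) ^ (u + kap) ≤ 2 * (P : ℝ) ^ (u + kap))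
    {c : Fin r → ℤ} (hc : ∀ i, c i ∈ Icc (-2 : ℤ) 2) (hc0 : c ≠ 0) :
    ‖∑ y ∈ Ioc (P / d) ((P + H) / d),
      e (∑ i : Fin r, (c i : ℝ) * ((n : ℝ) / ((d * y : ℕ) : ℝ) ^ (m0 + (i : ℕ))))‖ ≤
      ((H : ℝ) / d + 1 + (P : ℝ) ^ ((2 : ℝ) / 7)) * (5 / Real.log P ^ 8) := by
  classical
  -- the first nonzero index
  obtain ⟨i0, hi0, hmin⟩ : ∃ i0 : Fin r, c i0 ≠ 0 ∧ ∀ j < i0, c j = 0 := by
    have hex : ∃ i, c i ≠ 0 := by
      by_contra hcon
      push Not at hcon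
      exact hc0 (funext hcon)
    have hne : (Finset.univ.filter fun i => c i ≠ 0).Nonempty := by
      obtain ⟨i, hi⟩ := hex
      exact ⟨i, by simp [hi]⟩
    refine ⟨(Finset.univ.filter fun i => c i ≠ 0).min' hne, ?_, ?_⟩
    · have := Finset.min'_mem _ hne
      exact (Finset.mem_filter.1 this).2
    · intro j hj
      by_contra hcon
      have h1 : j ∈ Finset.univ.filter fun i => c i ≠ 0 := by simp [hcon]
      have h2 := Finset.min'_le _ j h1
      exact absurd hj (not_lt.2 h2)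
  have hi0r : (i0 : ℕ) < r := i0.2
  set c' : ℕ → ℝ := fun i => if hi : i < r then ((c ⟨i, hi⟩ : ℤ) : ℝ) else 0 with hc'
  set h : ℕ → ℝ := fun j => c' (i0 + j) with hh
  have hphase : ∀ x : ℝ, ∑ i : Fin r, (c i : ℝ) * ((n : ℝ) / x ^ (m0 + (i : ℕ))) =
      phase n (r - 1 - i0) (m0 + i0) h x := by
    intro x
    have h1 : ∑ i : Fin r, (c i : ℝ) * ((n : ℝ) / x ^ (m0 + (i : ℕ))) =
        ∑ i ∈ range r, c' i * ((n : ℝ) / x ^ (m0 + i)) := by
      rw [← Fin.sum_univ_eq_sum_range (fun i => c' i * ((n : ℝ) / x ^ (m0 + i)))]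
      refine Finset.sum_congr rfl fun i _ => ?_
      simp [hc']
    rw [h1, phase]
    have e1 : r = i0 + (r - 1 - i0 + 1) := by omega
    have h2 : ∑ i ∈ range r, c' i * ((n : ℝ) / x ^ (m0 + i)) =
        ∑ i ∈ range (i0 + (r - 1 - i0 + 1)), c' i * ((n : ℝ) / x ^ (m0 + i)) := by
      rw [← e1]
    rw [h2, Finset.sum_range_add]
    have h3 : ∑ i ∈ range (i0 : ℕ), c' i * ((n : ℝ) / x ^ (m0 + i)) = 0 := by
      refine Finset.sum_eq_zero fun i hi => ?_
      rw [mem_range] at hi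
      have : c' i = 0 := by
        rw [hc']
        simp only
        rw [dif_pos (by omega : i < r), hmin ⟨i, by omega⟩ (by simpa [Fin.lt_def] using hi)]
        simp
      rw [this, zero_mul]
    rw [h3, zero_add]
    refine Finset.sum_congr rfl fun j _ => ?_
    rw [hh, add_assoc]
  have hh0 : 1 ≤ |h 0| := by
    rw [hh]
    simp only [add_zero, hc']
    rw [dif_pos hi0r]
    have : (1 : ℤ) ≤ |c i0| := Int.one_le_abs hi0
    exact_mod_cast this
  have hhle : ∀ j, |h j| ≤ 2 := by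
    intro j
    rw [hh]
    simp only [hc']
    split_ifs with hlt
    · have h1 := hc ⟨i0 + j, hlt⟩
      rw [mem_Icc] at h1
      have : |c ⟨i0 + j, hlt⟩| ≤ 2 := abs_le.2 h1
      exact_mod_cast this
    · simp
  obtain ⟨N, hN1, hN7, hN⟩ := block2 (n := n) (P := P) (H := H) (u := u) (m := m0 + i0) (d := d)
    (kap := kap) (r := r - 1 - i0) (h := h) hP hu1 hu2 (by omega) (by omega) hd (by omega)
    (by omega) hh0 (fun i _ => hhle i) H1 H1' H2 H3
  have hPr : (2 : ℝ) ≤ P := by exact_mod_cast hP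
  have hL : 0 < Real.log P := Real.log_pos (by linarith)
  have hNr : (1 : ℝ) ≤ N := by exact_mod_cast hN1
  have hd0 : 0 < d := by omega
  have hdr : (0 : ℝ) < d := by exact_mod_cast hd0
  have hsb := sum_blocks (F := fun y => e (∑ i : Fin r, (c i : ℝ) *
      ((n : ℝ) / ((d * y : ℕ) : ℝ) ^ (m0 + (i : ℕ))))) hN1 (B := 5 * N / Real.log P ^ 8)
      (by positivity) ((P + H) / d) _ (P / d) le_rfl (by
        intro y0 hy0 hy0' M hM
        have h1 : P < d * y0 := by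
          rw [Nat.div_lt_iff_lt_mul hd0] at hy0
          rw [mul_comm]; exact hy0
        have h2 : d * y0 ≤ P + H := by
          rw [Nat.le_div_iff_mul_le hd0] at hy0'
          rw [mul_comm]; exact hy0'
        have h3 := hN ((d * y0 : ℕ) : ℝ) (by exact_mod_cast h1.le) (by exact_mod_cast h2) M hM
        refine le_trans (le_of_eq ?_) h3
        congr 1
        refine Finset.sum_congr rfl fun t _ => ?_
        rw [hphase]
        congr 2
        push_cast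
        ring)
  refine hsb.trans ?_
  have hcard : ((((P + H) / d - P / d : ℕ)) : ℝ) ≤ (H : ℝ) / d + 1 := by
    have h1 : (P + H) / d ≤ P / d + H / d + 1 := by
      rw [Nat.add_div hd0]
      split_ifs
      · exact le_rfl
      · exact Nat.le_succ _
    have h2 : (P + H) / d - P / d ≤ H / d + 1 := by
      rw [Nat.sub_le_iff_le_add]
      refine h1.trans (le_of_eq ?_)
      ring
    have h3 : (((P + H) / d - P / d : ℕ) : ℝ) ≤ ((H / d : ℕ) : ℝ) + 1 := by exact_mod_cast h2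
    have h4 : ((H / d : ℕ) : ℝ) ≤ (H : ℝ) / d := Nat.cast_div_le
    linarith
  have hNP : (N : ℝ) ≤ (P : ℝ) ^ ((2 : ℝ) / 7) := by
    have h1 : (N : ℝ) ^ (7 : ℕ) ≤ (P : ℝ) ^ (2 : ℕ) := by exact_mod_cast hN7
    have h2 : ((P : ℝ) ^ ((2 : ℝ) / 7)) ^ (7 : ℕ) = (P : ℝ) ^ (2 : ℕ) := by
      rw [← Real.rpow_natCast, ← Real.rpow_mul (by positivity)]
      norm_num
    rw [← h2] at h1
    exact le_of_pow_le_pow_left₀ (by norm_num) (by positivity) h1
  calc (((((P + H) / d - P / d : ℕ)) : ℝ) / N + 1) * (5 * N / Real.log P ^ 8)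
      = (((((P + H) / d - P / d : ℕ)) : ℝ) + N) * (5 / Real.log P ^ 8) := by
        field_simp
    _ ≤ _ := by
        refine mul_le_mul_of_nonneg_right ?_ (by positivity)
        linarith

/-- The weight `∏_{i < r} F(n / x^(m0 + i))`. -/
noncomputable def W (n r m0 : ℕ) (x : ℕ) : ℝ := ∏ i : Fin r, F ((n : ℝ) / (x : ℝ) ^ (m0 + (i : ℕ)))

theorem W_nonneg (n r m0 x : ℕ) : 0 ≤ W n r m0 x := Finset.prod_nonneg fun _ _ => F_nonneg _

theorem W_fourier (n r m0 x : ℕ) : (W n r m0 x : ℂ) =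
    ∑ c ∈ Fintype.piFinset (fun _ : Fin r => Icc (-2 : ℤ) 2), (∏ i, aF (c i)) *
      e (∑ i : Fin r, (c i : ℝ) * ((n : ℝ) / (x : ℝ) ^ (m0 + (i : ℕ)))) := by
  rw [W, Complex.ofReal_prod]
  simp_rw [F_fourier]
  rw [Finset.prod_univ_sum]
  refine Finset.sum_congr rfl fun c _ => ?_
  rw [Finset.prod_mul_distrib]
  congr 1
  have : ∀ (s : Finset (Fin r)), ∏ i ∈ s, e ((c i : ℝ) * ((n : ℝ) / (x : ℝ) ^ (m0 + (i : ℕ)))) =
      e (∑ i ∈ s, (c i : ℝ) * ((n : ℝ) / (x : ℝ) ^ (m0 + (i : ℕ)))) := by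
    intro s
    induction s using Finset.induction_on with
    | empty => simp [e_zero]
    | insert a s ha ih => rw [Finset.prod_insert ha, Finset.sum_insert ha, e_add, ih]
  exact this Finset.univ

theorem typeI {n P H u r m0 kap d : ℕ} (hP : 2 ≤ P)
    (hu1 : P ^ u ≤ n) (hu2 : n < P ^ (u + 1)) (hm0 : 1 ≤ m0) (hm : m0 + (r + 5) = u)
    (hd : 1 ≤ d) (hkap : kap = r + 7)
    (H1 : 64 * (kap : ℝ) * 2 ^ kap * Real.log (Real.log P) ≤ Real.log P)
    (H1' : 1 ≤ Real.log (Real.log P))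
    (H2 : 8 * ((kap : ℝ) + 2) * Real.log (16 * ((kap : ℝ) + 2) * u * d) ≤ Real.log P)
    (H3 : ((P + H : ℕ) : ℝ) ^ (u + kap) ≤ 2 * (P : ℝ) ^ (u + kap)) :
    |∑ x ∈ Ioc P (P + H) with d ∣ x, W n r m0 x - (3 / 4) ^ r * H / d| ≤
      1 + (3 / 2) ^ r * (((H : ℝ) / d + 1 + (P : ℝ) ^ ((2 : ℝ) / 7)) *
        (5 / Real.log P ^ 8)) := by
  classical
  have hd0 : 0 < d := by omega
  have hdr : (0 : ℝ) < d := by exact_mod_cast hd0
  have e1 : ∑ x ∈ Ioc P (P + H) with d ∣ x, W n r m0 x =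
      ∑ y ∈ Ioc (P / d) ((P + H) / d), W n r m0 (d * y) := by
    symm
    refine Finset.sum_bij (fun y _ => d * y) ?_ ?_ ?_ ?_
    · intro y hy
      rw [mem_Ioc, Nat.div_lt_iff_lt_mul hd0, Nat.le_div_iff_mul_le hd0] at hy
      rw [mem_filter, mem_Ioc, mul_comm]
      exact ⟨hy, dvd_mul_left d y⟩
    · intro a _ b _ hab
      exact Nat.eq_of_mul_eq_mul_left hd0 hab
    · intro x hx
      rw [mem_filter, mem_Ioc] at hx
      obtain ⟨y, rfl⟩ := hx.2
      refine ⟨y, ?_, rfl⟩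
      rw [mem_Ioc, Nat.div_lt_iff_lt_mul hd0, Nat.le_div_iff_mul_le hd0, mul_comm]
      exact hx.1
    · intro y _; rfl
  set I := Ioc (P / d) ((P + H) / d) with hI
  have e2 : ((∑ y ∈ I, W n r m0 (d * y) : ℝ) : ℂ) =
      ∑ c ∈ Fintype.piFinset (fun _ : Fin r => Icc (-2 : ℤ) 2), (∏ i, aF (c i)) *
        ∑ y ∈ I, e (∑ i : Fin r, (c i : ℝ) * ((n : ℝ) / ((d * y : ℕ) : ℝ) ^ (m0 + (i : ℕ)))) := by
    rw [Complex.ofReal_sum]
    simp_rw [W_fourier]
    rw [Finset.sum_comm]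
    refine Finset.sum_congr rfl fun c _ => ?_
    rw [Finset.mul_sum]
  have h0mem : (0 : Fin r → ℤ) ∈ Fintype.piFinset (fun _ : Fin r => Icc (-2 : ℤ) 2) := by
    rw [Fintype.mem_piFinset]
    intro i
    simp
  have e3 : ∑ c ∈ Fintype.piFinset (fun _ : Fin r => Icc (-2 : ℤ) 2), (∏ i, aF (c i)) *
        ∑ y ∈ I, e (∑ i : Fin r, (c i : ℝ) * ((n : ℝ) / ((d * y : ℕ) : ℝ) ^ (m0 + (i : ℕ)))) =
      (3 / 4) ^ r * (I.card : ℂ) +
      ∑ c ∈ (Fintype.piFinset (fun _ : Fin r => Icc (-2 : ℤ) 2)).erase 0, (∏ i, aF (c i)) *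
        ∑ y ∈ I, e (∑ i : Fin r, (c i : ℝ) *
          ((n : ℝ) / ((d * y : ℕ) : ℝ) ^ (m0 + (i : ℕ)))) := by
    rw [← Finset.add_sum_erase _ _ h0mem]
    congr 1
    simp [aF, e_zero, div_pow]
  have h4 : ‖∑ c ∈ (Fintype.piFinset (fun _ : Fin r => Icc (-2 : ℤ) 2)).erase 0,
      (∏ i, aF (c i)) * ∑ y ∈ I, e (∑ i : Fin r, (c i : ℝ) *
          ((n : ℝ) / ((d * y : ℕ) : ℝ) ^ (m0 + (i : ℕ))))‖ ≤
      (3 / 2) ^ r * (((H : ℝ) / d + 1 + (P : ℝ) ^ ((2 : ℝ) / 7)) *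
        (5 / Real.log P ^ 8)) := by
    have hQ : 0 ≤ ((H : ℝ) / d + 1 + (P : ℝ) ^ ((2 : ℝ) / 7)) * (5 / Real.log P ^ 8) := by
      have : 0 ≤ Real.log P := Real.log_natCast_nonneg P
      positivity
    refine (norm_sum_le _ _).trans ?_
    calc ∑ c ∈ (Fintype.piFinset (fun _ : Fin r => Icc (-2 : ℤ) 2)).erase 0,
          ‖(∏ i, aF (c i)) * ∑ y ∈ I, e (∑ i : Fin r, (c i : ℝ) *
          ((n : ℝ) / ((d * y : ℕ) : ℝ) ^ (m0 + (i : ℕ))))‖
        ≤ ∑ c ∈ (Fintype.piFinset (fun _ : Fin r => Icc (-2 : ℤ) 2)).erase 0,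
          (∏ i, ‖aF (c i)‖) * (((H : ℝ) / d + 1 + (P : ℝ) ^ ((2 : ℝ) / 7)) *
            (5 / Real.log P ^ 8)) := by
          refine Finset.sum_le_sum fun c hc => ?_
          rw [Finset.mem_erase, Fintype.mem_piFinset] at hc
          rw [norm_mul, norm_prod]
          refine mul_le_mul_of_nonneg_left ?_ (Finset.prod_nonneg fun _ _ => norm_nonneg _)
          exact freq hP hu1 hu2 hm0 hm hd hkap H1 H1' H2 H3 hc.2 hc.1
      _ ≤ ∑ c ∈ Fintype.piFinset (fun _ : Fin r => Icc (-2 : ℤ) 2),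
          (∏ i, ‖aF (c i)‖) * (((H : ℝ) / d + 1 + (P : ℝ) ^ ((2 : ℝ) / 7)) *
            (5 / Real.log P ^ 8)) := by
          refine Finset.sum_le_sum_of_subset_of_nonneg (Finset.erase_subset _ _) ?_
          intro c _ _
          exact mul_nonneg (Finset.prod_nonneg fun _ _ => norm_nonneg _) hQ
      _ = _ := by
          rw [← Finset.sum_mul, ← Finset.prod_univ_sum (fun _ : Fin r => Icc (-2 : ℤ) 2)
            (fun _ h => ‖aF h‖)]
          rw [sum_norm_aF, Finset.prod_const, Finset.card_univ, Fintype.card_fin]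
  have hcard : |(I.card : ℝ) - H / d| ≤ 1 := by
    rw [hI, Nat.card_Ioc]
    have h1 : P / d ≤ (P + H) / d := Nat.div_le_div_right (Nat.le_add_right P H)
    rw [Nat.cast_sub h1]
    have a1 : ((P / d : ℕ) : ℝ) ≤ (P : ℝ) / d := Nat.cast_div_le
    have a2 : (P : ℝ) / d < ((P / d : ℕ) : ℝ) + 1 := by
      rw [div_lt_iff₀ hdr]
      have := Nat.lt_div_mul_add hd0 (a := P)
      have h3 : P < (P / d + 1) * d := by rw [add_mul, one_mul]; exact this
      exact_mod_cast h3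
    have b1 : (((P + H) / d : ℕ) : ℝ) ≤ ((P + H : ℕ) : ℝ) / d := Nat.cast_div_le
    have b2 : ((P + H : ℕ) : ℝ) / d < (((P + H) / d : ℕ) : ℝ) + 1 := by
      rw [div_lt_iff₀ hdr]
      have := Nat.lt_div_mul_add hd0 (a := P + H)
      have h3 : P + H < ((P + H) / d + 1) * d := by rw [add_mul, one_mul]; exact this
      exact_mod_cast h3
    rw [Nat.cast_add, add_div] at b1 b2
    rw [abs_le]
    constructor <;> linarith
  rw [e1]
  have h5 : ‖((∑ y ∈ I, W n r m0 (d * y) - (3 / 4) ^ r * H / d : ℝ) : ℂ)‖ ≤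
      1 + (3 / 2) ^ r * (((H : ℝ) / d + 1 + (P : ℝ) ^ ((2 : ℝ) / 7)) *
        (5 / Real.log P ^ 8)) := by
    rw [Complex.ofReal_sub, e2, e3, add_sub_right_comm]
    refine (norm_add_le _ _).trans (add_le_add ?_ h4)
    have h6 : (3 / 4 : ℂ) ^ r * (I.card : ℂ) - (((3 / 4) ^ r * H / d : ℝ) : ℂ) =
        (((3 / 4) ^ r * ((I.card : ℝ) - H / d) : ℝ) : ℂ) := by
      push_cast
      ring
    rw [h6, Complex.norm_real, Real.norm_eq_abs, abs_mul]
    have h7 : |(3 / 4 : ℝ) ^ r| ≤ 1 := by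
      rw [abs_of_nonneg (by positivity)]
      exact pow_le_one₀ (by norm_num) (by norm_num)
    calc |(3 / 4 : ℝ) ^ r| * |(I.card : ℝ) - H / d| ≤ 1 * 1 :=
          mul_le_mul h7 hcard (abs_nonneg _) (by norm_num)
      _ = 1 := by norm_num
  rwa [Complex.norm_real, Real.norm_eq_abs] at h5

end Pool.Agent.ExpSum
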