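import Mathlib

/-!
Upper bounds in Mertens' theorems.
-/

namespace Pool.Agent.ExpSum

open Finset Nat

/-- `∑_{p ≤ n} log p / p`. -/
noncomputable def mA (n : ℕ) : ℝ := ∑ p ∈ (Ioc 0 n).filter Nat.Prime, Real.log p / p

theorem mA_le {n : ℕ} (hn : 1 ≤ n) : mA n ≤ Real.log n + Real.log 4 := by
  have hnr : (1 : ℝ) ≤ n := by exact_mod_cast hn
  have hn0 : (0 : ℝ) < n := by linarith
  -- `log n! = ∑_{d ≤ n} Λ(d) ⌊n/d⌋`
  have h1 : ∑ k ∈ Ioc 0 n, Real.log k =
      ∑ d ∈ Ioc 0 n, ArithmeticFunction.vonMangoldt d * ((n / d : ℕ) : ℝ) := by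
    calc ∑ k ∈ Ioc 0 n, Real.log k
        = ∑ k ∈ Ioc 0 n, ∑ d ∈ k.divisors, ArithmeticFunction.vonMangoldt d := by
          refine Finset.sum_congr rfl fun k _ => ?_
          rw [ArithmeticFunction.vonMangoldt_sum]
      _ = ∑ d ∈ Ioc 0 n, ∑ k ∈ (Ioc 0 n).filter (d ∣ ·), ArithmeticFunction.vonMangoldt d := by
          refine Finset.sum_comm' ?_
          intro k d
          rw [mem_Ioc, Nat.mem_divisors, mem_filter, mem_Ioc, mem_Ioc]
          constructor
          · rintro ⟨⟨h1, h2⟩, h3, h4⟩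
            exact ⟨⟨⟨h1, h2⟩, h3⟩, Nat.pos_of_dvd_of_pos h3 h1, (Nat.le_of_dvd h1 h3).trans h2⟩
          · rintro ⟨⟨⟨h1, h2⟩, h3⟩, _, _⟩
            exact ⟨⟨h1, h2⟩, h3, by omega⟩
      _ = _ := by
          refine Finset.sum_congr rfl fun d _ => ?_
          rw [Finset.sum_const, Nat.Ioc_filter_dvd_card_eq_div, nsmul_eq_mul, mul_comm]
  have h2 : ∑ k ∈ Ioc 0 n, Real.log k ≤ n * Real.log n := by
    calc ∑ k ∈ Ioc 0 n, Real.log k ≤ ∑ k ∈ Ioc 0 n, Real.log n := by
          refine Finset.sum_le_sum fun k hk => ?_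
          rw [mem_Ioc] at hk
          exact Real.log_le_log (by exact_mod_cast hk.1) (by exact_mod_cast hk.2)
      _ = _ := by simp
  have h3 : ∑ p ∈ (Ioc 0 n).filter Nat.Prime, Real.log p * ((n / p : ℕ) : ℝ) ≤
      n * Real.log n := by
    refine le_trans ?_ h2
    rw [h1]
    calc ∑ p ∈ (Ioc 0 n).filter Nat.Prime, Real.log p * ((n / p : ℕ) : ℝ)
        = ∑ p ∈ (Ioc 0 n).filter Nat.Prime,
          ArithmeticFunction.vonMangoldt p * ((n / p : ℕ) : ℝ) := by
          refine Finset.sum_congr rfl fun p hp => ?_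
          rw [ArithmeticFunction.vonMangoldt_apply_prime (mem_filter.1 hp).2]
      _ ≤ _ := by
          refine Finset.sum_le_sum_of_subset_of_nonneg (Finset.filter_subset _ _) ?_
          intro d _ _
          exact mul_nonneg ArithmeticFunction.vonMangoldt_nonneg (Nat.cast_nonneg _)
  have h4 : ∑ p ∈ (Ioc 0 n).filter Nat.Prime, Real.log p ≤ Real.log 4 * n := by
    have := Chebyshev.theta_le_log4_mul_x (x := (n : ℝ)) hn0.le
    rw [Chebyshev.theta, Nat.floor_natCast] at this
    exact this
  have h5 : (n : ℝ) * mA n ≤ n * Real.log n + Real.log 4 * n := by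
    calc (n : ℝ) * mA n = ∑ p ∈ (Ioc 0 n).filter Nat.Prime, Real.log p * ((n : ℝ) / p) := by
          rw [mA, Finset.mul_sum]
          refine Finset.sum_congr rfl fun p _ => ?_
          ring
      _ ≤ ∑ p ∈ (Ioc 0 n).filter Nat.Prime,
          (Real.log p * ((n / p : ℕ) : ℝ) + Real.log p) := by
          refine Finset.sum_le_sum fun p hp => ?_
          have hpp := (mem_filter.1 hp).2
          have hp1 : (1 : ℝ) ≤ p := by exact_mod_cast hpp.one_lt.le
          have hlp : 0 ≤ Real.log p := Real.log_nonneg hp1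
          have h6 : (n : ℝ) / p ≤ ((n / p : ℕ) : ℝ) + 1 := by
            rw [div_le_iff₀ (by linarith)]
            have := Nat.lt_div_mul_add hpp.pos (a := n)
            have h3 : n ≤ (n / p + 1) * p := by rw [add_mul, one_mul]; exact this.le
            exact_mod_cast h3
          calc Real.log p * ((n : ℝ) / p) ≤ Real.log p * (((n / p : ℕ) : ℝ) + 1) :=
                mul_le_mul_of_nonneg_left h6 hlp
            _ = _ := by ring
      _ ≤ _ := by
          rw [Finset.sum_add_distrib]
          exact add_le_add h3 h4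
  have h6 : (n : ℝ) * mA n ≤ n * (Real.log n + Real.log 4) := by linarith
  exact le_of_mul_le_mul_left h6 hn0

theorem mA_nonneg (n : ℕ) : 0 ≤ mA n :=
  Finset.sum_nonneg fun p hp => by
    have := (mem_filter.1 hp).2
    have : (1 : ℝ) ≤ p := by exact_mod_cast this.one_lt.le
    have := Real.log_nonneg this
    positivity

/-- `∑_{p ≤ n} 1 / p`. -/
noncomputable def mP (n : ℕ) : ℝ := ∑ p ∈ (Ioc 0 n).filter Nat.Prime, 1 / (p : ℝ)

theorem mP_eq {N : ℕ} (hN : 2 ≤ N) : mP N = mA N / Real.log N +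
    ∑ k ∈ Ico 2 N, mA k * (1 / Real.log k - 1 / Real.log ((k : ℝ) + 1)) := by
  induction N, hN using Nat.le_induction with
  | base =>
    have : (Ioc 0 2).filter Nat.Prime = {2} := by decide
    rw [mP, mA, this]
    have hl : Real.log 2 ≠ 0 := (Real.log_pos (by norm_num)).ne'
    simp only [Finset.sum_singleton, Finset.Ico_self, Finset.sum_empty]
    push_cast
    field_simp
    ring
  | succ N hN ih =>
    have hNr : (2 : ℝ) ≤ N := by exact_mod_cast hN
    have hl1 : Real.log (N : ℝ) ≠ 0 := (Real.log_pos (by linarith)).ne'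
    have hl2 : Real.log ((N : ℝ) + 1) ≠ 0 := (Real.log_pos (by linarith)).ne'
    have hI : Ioc 0 (N + 1) = insert (N + 1) (Ioc 0 N) := by
      ext x; simp only [mem_Ioc, mem_insert]; omega
    have hni : N + 1 ∉ Ioc 0 N := by simp
    rw [Finset.sum_Ico_succ_top hN]
    by_cases hp : (N + 1).Prime
    · have e1 : mP (N + 1) = mP N + 1 / ((N : ℝ) + 1) := by
        rw [mP, hI, Finset.filter_insert, if_pos hp, Finset.sum_insert (by simp), mP]
        push_cast
        ring
      have e2 : mA (N + 1) = mA N + Real.log ((N : ℝ) + 1) / ((N : ℝ) + 1) := by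
        rw [mA, hI, Finset.filter_insert, if_pos hp, Finset.sum_insert (by simp), mA]
        push_cast
        ring
      rw [e1, e2, ih]
      push_cast
      have hN1 : (N : ℝ) + 1 ≠ 0 := by linarith
      field_simp
      ring
    · have e1 : mP (N + 1) = mP N := by
        rw [mP, hI, Finset.filter_insert, if_neg hp, mP]
      have e2 : mA (N + 1) = mA N := by
        rw [mA, hI, Finset.filter_insert, if_neg hp, mA]
      rw [e1, e2, ih]
      push_cast
      field_simp
      ring

/-- Mertens' second theorem, upper bound: `∑_{p ≤ N} 1/p ≤ log log N + 4`. -/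
theorem mP_le {N : ℕ} (hN : 2 ≤ N) : mP N ≤ Real.log (Real.log N) + 4 := by
  have key : ∀ M : ℕ, 2 ≤ M →
      ∑ k ∈ Ico 2 M, mA k * (1 / Real.log k - 1 / Real.log ((k : ℝ) + 1)) ≤
      Real.log (Real.log M) - Real.log (Real.log 2) +
        Real.log 4 * (1 / Real.log 2 - 1 / Real.log M) := by
    intro M hM
    induction M, hM using Nat.le_induction with
    | base => simp
    | succ M hM ih =>
      have hMr : (2 : ℝ) ≤ M := by exact_mod_cast hM
      rw [Finset.sum_Ico_succ_top hM]
      have hl1 : 0 < Real.log (M : ℝ) := Real.log_pos (by linarith)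
      have hl2 : 0 < Real.log ((M : ℝ) + 1) := Real.log_pos (by linarith)
      have hl12 : Real.log (M : ℝ) ≤ Real.log ((M : ℝ) + 1) :=
        Real.log_le_log (by linarith) (by linarith)
      have h1 : 0 ≤ 1 / Real.log (M : ℝ) - 1 / Real.log ((M : ℝ) + 1) := by
        rw [sub_nonneg]
        exact one_div_le_one_div_of_le hl1 hl12
      have h2 := mul_le_mul_of_nonneg_right (mA_le (by omega : 1 ≤ M)) h1
      have h3 : Real.log (M : ℝ) * (1 / Real.log (M : ℝ) - 1 / Real.log ((M : ℝ) + 1)) ≤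
          Real.log (Real.log ((M : ℝ) + 1)) - Real.log (Real.log M) := by
        have h4 : Real.log (M : ℝ) * (1 / Real.log (M : ℝ) - 1 / Real.log ((M : ℝ) + 1)) =
            1 - Real.log M / Real.log ((M : ℝ) + 1) := by
          field_simp
        have h5 := Real.log_le_sub_one_of_pos (div_pos hl1 hl2)
        rw [Real.log_div hl1.ne' hl2.ne'] at h5
        rw [h4]
        linarith
      push_cast
      have h6 : (Real.log (M : ℝ) + Real.log 4) *
          (1 / Real.log (M : ℝ) - 1 / Real.log ((M : ℝ) + 1)) =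
          Real.log (M : ℝ) * (1 / Real.log (M : ℝ) - 1 / Real.log ((M : ℝ) + 1)) +
          Real.log 4 * (1 / Real.log (M : ℝ) - 1 / Real.log ((M : ℝ) + 1)) := by ring
      rw [h6] at h2
      linarith
  have hNr : (2 : ℝ) ≤ N := by exact_mod_cast hN
  have hl1 : 0 < Real.log (N : ℝ) := Real.log_pos (by linarith)
  have hl2 : 0 < Real.log 2 := Real.log_pos (by norm_num)
  rw [mP_eq hN]
  have h1 := key N hN
  have h2 : mA N / Real.log N ≤ 1 + Real.log 4 * (1 / Real.log N) := by
    rw [div_le_iff₀ hl1]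
    have := mA_le (by omega : 1 ≤ N)
    field_simp
    linarith
  have h3 : Real.log 4 * (1 / Real.log 2) = 2 := by
    rw [show (4 : ℝ) = 2 ^ 2 by norm_num, Real.log_pow]
    field_simp
    norm_num
  have h4 : -Real.log (Real.log 2) ≤ 1 := by
    have h5 : 1 / 2 ≤ Real.log 2 := by
      have := Real.log_two_gt_d9; linarith
    have h6 : Real.log (1 / 2) ≤ Real.log (Real.log 2) :=
      Real.log_le_log (by norm_num) h5
    rw [one_div, Real.log_inv] at h6
    have := Real.log_two_lt_d9
    linarith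
  have h7 : Real.log 4 * (1 / Real.log 2 - 1 / Real.log N) = 2 - Real.log 4 * (1 / Real.log N) := by
    rw [mul_sub, h3]
  linarith

end Pool.Agent.ExpSum
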